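import Pool.Agent.Lib.MP_fdde87_co.Words

/-!
The operators on cd-polynomials which belong to pyramids and prisms.
-/

set_option autoImplicit false

namespace Pool.Agent.MPfdde87PP

open Pool.Agent.MPfdde87

/-- the cd-polynomial with coefficients `φ`. -/
noncomputable def cdSum (n : ℕ) (φ : List Letter → ℤ) : NC := ∑ w ∈ cdWords n, φ w • polyW w

/-- the derivation `a ↦ b a`, `b ↦ a b`, as a ring homomorphism into dual numbers. -/
noncomputable def derHom : NC →ₐ[ℤ] TrivSqZeroExt NC NC :=
  FreeAlgebra.lift ℤ fun x =>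
    TrivSqZeroExt.inl (FreeAlgebra.ι ℤ x) + TrivSqZeroExt.inr (if x then va * vb else vb * va)

/-- the derivation `a ↦ b a`, `b ↦ a b`. -/
noncomputable def der (p : NC) : NC := (derHom p).snd

theorem derHom_fst (p : NC) : (derHom p).fst = p := by
  induction p using FreeAlgebra.induction with
  | grade0 r =>
    rw [AlgHom.commutes]
    rfl
  | grade1 x => cases x <;> simp [derHom]
  | mul p q hp hq => rw [map_mul, TrivSqZeroExt.fst_mul, hp, hq]
  | add p q hp hq => rw [map_add, TrivSqZeroExt.fst_add, hp, hq]

theorem der_mul (p q : NC) : der (p * q) = der p * q + p * der q := by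
  unfold der
  rw [map_mul, TrivSqZeroExt.snd_mul, derHom_fst, derHom_fst]
  simp only [smul_eq_mul, MulOpposite.smul_eq_mul_unop, MulOpposite.unop_op]
  exact add_comm _ _

theorem der_add (p q : NC) : der (p + q) = der p + der q := by
  unfold der
  rw [map_add, TrivSqZeroExt.snd_add]

theorem der_sub (p q : NC) : der (p - q) = der p - der q := by
  unfold der
  rw [map_sub, TrivSqZeroExt.snd_sub]

theorem der_smul (z : ℤ) (p : NC) : der (z • p) = z • der p := by
  unfold der
  rw [map_smul, TrivSqZeroExt.snd_smul]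

theorem der_one : der 1 = 0 := by
  unfold der
  rw [map_one, TrivSqZeroExt.snd_one]

theorem der_zero : der 0 = 0 := by
  unfold der
  rw [map_zero, TrivSqZeroExt.snd_zero]

theorem der_sum {ι : Type*} (s : Finset ι) (f : ι → NC) :
    der (∑ i ∈ s, f i) = ∑ i ∈ s, der (f i) := by
  classical
  induction s using Finset.induction_on with
  | empty => simp [der_zero]
  | insert i s hi ih => rw [Finset.sum_insert hi, Finset.sum_insert hi, der_add, ih]

theorem der_va : der va = vb * va := by
  unfold der va derHom
  rw [FreeAlgebra.lift_ι_apply]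
  simp [va, vb]

theorem der_vb : der vb = va * vb := by
  unfold der vb derHom
  rw [FreeAlgebra.lift_ι_apply]
  simp [va, vb]

theorem der_c : der (va + vb) = va * vb + vb * va := by
  rw [der_add, der_va, der_vb, add_comm]

theorem der_d : der (va * vb + vb * va) = (va + vb) * (va * vb + vb * va) := by
  rw [der_add, der_mul, der_mul, der_va, der_vb]
  noncomm_ring

/-- the extra term of the coefficients of a pyramid. -/
def mt (φ : List Letter → ℤ) : List Letter → ℤ
  | [] => φ []
  | .c :: _ => 0
  | .d :: t => φ (.d :: t)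

/-- the coefficients of the cd-index of a pyramid. -/
def pyrC : List Letter → (List Letter → ℤ) → ℤ
  | [], _ => 0
  | .c :: t, φ => pyrC t (fun w => φ (.c :: w)) + mt φ t
  | .d :: t, φ => pyrC t (fun w => φ (.d :: w)) + φ (.c :: t)

/-- the value of `φ` at the word without its first letter, if this is `c`. -/
def tlC (φ : List Letter → ℤ) : List Letter → ℤ
  | [] => 0
  | .c :: t => φ t
  | .d :: _ => 0

theorem cdSum_zero (φ : List Letter → ℤ) : cdSum 0 φ = φ [] • 1 := by
  rw [cdSum, cdWords, Finset.sum_singleton, polyW_nil]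

theorem cdSum_one (φ : List Letter → ℤ) : cdSum 1 φ = φ [.c] • (va + vb) := by
  rw [cdSum, cdWords, Finset.sum_singleton, polyW_cons, polyW_nil, mul_one]
  rfl

theorem cdSum_succ_succ (n : ℕ) (φ : List Letter → ℤ) : cdSum (n + 2) φ =
    (va + vb) * cdSum (n + 1) (fun w => φ (.c :: w)) +
      (va * vb + vb * va) * cdSum n (fun w => φ (.d :: w)) := by
  rw [cdSum, sum_cdWords_left, cdSum, cdSum, Finset.mul_sum, Finset.mul_sum]
  congr 1
  · refine Finset.sum_congr rfl fun w _ => ?_
    rw [polyW_cons, mul_smul_comm]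
    rfl
  · refine Finset.sum_congr rfl fun w _ => ?_
    rw [polyW_cons, mul_smul_comm]
    rfl

theorem cdSum_add (n : ℕ) (φ ψ : List Letter → ℤ) :
    cdSum n (fun w => φ w + ψ w) = cdSum n φ + cdSum n ψ := by
  simp only [cdSum, add_smul, Finset.sum_add_distrib]

theorem cdSum_sub (n : ℕ) (φ ψ : List Letter → ℤ) :
    cdSum n (fun w => φ w - ψ w) = cdSum n φ - cdSum n ψ := by
  simp only [cdSum, sub_smul, Finset.sum_sub_distrib]

theorem cdSum_smul (n : ℕ) (z : ℤ) (φ : List Letter → ℤ) :
    cdSum n (fun w => z * φ w) = z • cdSum n φ := by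
  simp only [cdSum, mul_smul, Finset.smul_sum]

theorem cdSum_congr (n : ℕ) (φ ψ : List Letter → ℤ) (h : ∀ w, degW w = n → φ w = ψ w) :
    cdSum n φ = cdSum n ψ := by
  refine Finset.sum_congr rfl fun w hw => ?_
  rw [h w ((mem_cdWords n w).mp hw)]

theorem cdSum_mt (n : ℕ) (φ : List Letter → ℤ) : cdSum (n + 2) (mt φ) =
    (va * vb + vb * va) * cdSum n (fun w => φ (.d :: w)) := by
  rw [cdSum_succ_succ]
  have h : cdSum (n + 1) (fun w => mt φ (.c :: w)) = 0 := by
    simp [cdSum, mt]
  rw [h, mul_zero, zero_add]
  rfl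

theorem cdSum_pyrC (n : ℕ) : ∀ φ : List Letter → ℤ,
    cdSum (n + 1) (fun w => pyrC w φ) = cdSum n φ * (va + vb) + der (cdSum n φ) := by
  induction n using Nat.strong_induction_on with
  | _ n ih =>
    intro φ
    match n, ih with
    | 0, _ =>
      rw [cdSum_one, cdSum_zero, der_smul, der_one, smul_zero, add_zero, smul_mul_assoc, one_mul]
      simp [pyrC, mt]
    | 1, _ =>
      rw [cdSum_succ_succ, cdSum_one, cdSum_zero, cdSum_one, der_smul, der_c]
      simp only [pyrC, mt, zero_add, add_zero]
      simp only [smul_mul_assoc, mul_smul_comm, mul_one]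
    | n + 2, ih =>
      rw [cdSum_succ_succ (n + 1), cdSum_succ_succ n φ]
      simp only [pyrC]
      rw [cdSum_add, cdSum_add, ih (n + 1) (by omega), ih n (by omega), cdSum_mt, der_add, der_mul,
        der_mul, der_c, der_d]
      noncomm_ring

theorem cdSum_tlC (n : ℕ) (φ : List Letter → ℤ) :
    cdSum (n + 1) (tlC φ) = (va + vb) * cdSum n φ := by
  cases n with
  | zero =>
    rw [cdSum_one, cdSum_zero, mul_smul_comm, mul_one]
    rfl
  | succ n =>
    rw [cdSum_succ_succ]
    have h : cdSum n (fun w => tlC φ (.d :: w)) = 0 := by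
      simp [cdSum, tlC]
    rw [h, mul_zero, add_zero]
    rfl

/-- replacing `c c` by `d` does not decrease the coefficient. -/
def Mono (φ : List Letter → ℤ) : Prop :=
  ∀ u v : List Letter, φ (u ++ .c :: .c :: v) ≤ φ (u ++ .d :: v)

def Nonneg (φ : List Letter → ℤ) : Prop := ∀ w, 0 ≤ φ w

theorem Mono.cons {φ : List Letter → ℤ} (h : Mono φ) (x : Letter) : Mono fun w => φ (x :: w) :=
  fun u v => h (x :: u) v

theorem Nonneg.cons {φ : List Letter → ℤ} (h : Nonneg φ) (x : Letter) :
    Nonneg fun w => φ (x :: w) := fun w => h (x :: w)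

theorem mt_nonneg {φ : List Letter → ℤ} (h : Nonneg φ) (w : List Letter) : 0 ≤ mt φ w := by
  match w with
  | [] => exact h []
  | .c :: _ => exact le_rfl
  | .d :: t => exact h _

theorem pyrC_nonneg (w : List Letter) : ∀ φ : List Letter → ℤ, Nonneg φ → 0 ≤ pyrC w φ := by
  induction w with
  | nil => intro φ _; exact le_rfl
  | cons x t ih =>
    intro φ h
    cases x with
    | c => exact add_nonneg (ih _ (h.cons .c)) (mt_nonneg h t)
    | d => exact add_nonneg (ih _ (h.cons .d)) (h _)

theorem pyrC_mono_aux (w : List Letter) : ∀ φ ψ : List Letter → ℤ, (∀ v, φ v ≤ ψ v) →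
    pyrC w φ ≤ pyrC w ψ := by
  induction w with
  | nil => intro φ ψ _; exact le_rfl
  | cons x t ih =>
    intro φ ψ h
    cases x with
    | c =>
      refine add_le_add (ih _ _ fun v => h _) ?_
      match t with
      | [] => exact h []
      | .c :: _ => exact le_rfl
      | .d :: t => exact h _
    | d => exact add_le_add (ih _ _ fun v => h _) (h _)

theorem pyrC_key (u v : List Letter) : ∀ φ : List Letter → ℤ, Mono φ → Nonneg φ →
    pyrC (u ++ .c :: .c :: v) φ + tlC φ (u ++ .d :: v) ≤
      pyrC (u ++ .d :: v) φ + (if u = [] then 0 else tlC φ (u ++ .c :: .c :: v)) := by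
  induction u with
  | nil =>
    intro φ hm hn
    have e1 : pyrC (.c :: .c :: v) φ = pyrC v (fun w => φ (.c :: .c :: w)) +
      mt (fun w => φ (.c :: w)) v + mt φ (.c :: v) := rfl
    have e2 : pyrC (.d :: v) φ = pyrC v (fun w => φ (.d :: w)) + φ (.c :: v) := rfl
    have e3 : mt φ (.c :: v) = 0 := rfl
    have e4 : tlC φ (.d :: v) = 0 := rfl
    simp only [List.nil_append, if_true, add_zero]
    rw [e1, e2, e3, e4]
    have h1 := pyrC_mono_aux v (fun w => φ (.c :: .c :: w)) (fun w => φ (.d :: w))
      fun w => hm [] w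
    have h2 : mt (fun w => φ (.c :: w)) v ≤ φ (.c :: v) := by
      match v with
      | [] => exact le_rfl
      | .c :: _ => exact hn _
      | .d :: t => exact le_rfl
    linarith
  | cons x u ih =>
    intro φ hm hn
    cases x with
    | d =>
      simp only [List.cons_append, pyrC, tlC, reduceCtorEq, if_false, add_zero]
      have h1 := ih (fun w => φ (.d :: w)) (hm.cons .d) (hn.cons .d)
      have h2 := hm (.c :: u) v
      simp only [List.cons_append] at h2
      have h3 : (if u = [] then (0 : ℤ) else tlC (fun w => φ (.d :: w)) (u ++ .c :: .c :: v)) ≤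
          tlC (fun w => φ (.d :: w)) (u ++ .d :: v) := by
        split_ifs with hu
        · subst hu
          exact le_rfl
        · match u, hu with
          | .c :: u', _ => exact hm (.d :: u') v
          | .d :: u', _ => exact le_rfl
      linarith
    | c =>
      simp only [List.cons_append, pyrC, tlC, reduceCtorEq, if_false]
      have h1 := ih (fun w => φ (.c :: w)) (hm.cons .c) (hn.cons .c)
      match u with
      | [] =>
        simp only [List.nil_append, if_true, tlC, mt, add_zero] at h1 ⊢
        have h2 := hn (.c :: .c :: v)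
        linarith
      | .d :: u' =>
        simp only [List.cons_append, tlC, mt, reduceCtorEq, if_false, add_zero] at h1 ⊢
        linarith
      | .c :: u' =>
        simp only [List.cons_append, tlC, mt, reduceCtorEq, if_false, add_zero] at h1 ⊢
        linarith

theorem pyrC_mono {φ : List Letter → ℤ} (hm : Mono φ) (hn : Nonneg φ) :
    Mono fun w => pyrC w φ := by
  intro u v
  have h := pyrC_key u v φ hm hn
  have h3 : (if u = [] then (0 : ℤ) else tlC φ (u ++ .c :: .c :: v)) ≤ tlC φ (u ++ .d :: v) := by
    split_ifs with hu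
    · subst hu
      exact le_rfl
    · match u, hu with
      | .c :: u', _ => exact hm u' v
      | .d :: u', _ => exact le_rfl
  change pyrC (u ++ .c :: .c :: v) φ ≤ pyrC (u ++ .d :: v) φ
  linarith

theorem pyrC_sub_tlC_mono {φ : List Letter → ℤ} (hm : Mono φ) (hn : Nonneg φ) :
    Mono fun w => pyrC w φ - tlC φ w := by
  intro u v
  have h := pyrC_key u v φ hm hn
  have h3 : (if u = [] then (0 : ℤ) else tlC φ (u ++ .c :: .c :: v)) ≤
      tlC φ (u ++ .c :: .c :: v) := by
    split_ifs with hu
    · subst hu
      exact hn _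
    · exact le_rfl
  change pyrC (u ++ .c :: .c :: v) φ - tlC φ (u ++ .c :: .c :: v) ≤
    pyrC (u ++ .d :: v) φ - tlC φ (u ++ .d :: v)
  linarith

end Pool.Agent.MPfdde87PP
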