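import Pool.Agent.Lib.MP_fdde87_co_PP.Chains
import Pool.Agent.Lib.MP_fdde87_co.Main

/-!
Simplicial complexes with a top element adjoined, and the simplex.
-/

set_option autoImplicit false

namespace Pool.Agent.MPfdde87PP

open Pool.Agent.MPfdde87

section Complex

variable {V : Type} [DecidableEq V]

theorem PsiR_flagF_succ {Δ : Finset (Finset V)} (hΔ : ∀ s ∈ Δ, ∀ t, t ⊆ s → t ∈ Δ) (e : ℕ) :
    PsiR (e + 1) (flagF Δ) = PsiR e (flagF Δ) * (va - vb) +
      (∑ F ∈ Δ.filter (fun F => F.card = e + 1), PsiR e (flagF F.ssubsets)) * vb := by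
  rw [PsiR]
  congr 2
  rw [← PsiR_sum]
  exact PsiR_congr _ _ _ fun S hS => flagF_insert hΔ e S hS

theorem ssubsets_down (F : Finset V) : ∀ s ∈ F.ssubsets, ∀ t, t ⊆ s → t ∈ F.ssubsets := by
  intro s hs t ht
  rw [Finset.mem_ssubsets] at hs ⊢
  exact lt_of_le_of_lt ht hs

/-- The face poset of a simplicial complex with a top element adjoined. -/
def CFace (Δ : Finset (Finset V)) : Type := WithTop {σ : Finset V // σ ∈ Δ}

instance (Δ : Finset (Finset V)) : PartialOrder (CFace Δ) :=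
  inferInstanceAs (PartialOrder (WithTop {σ : Finset V // σ ∈ Δ}))

instance (Δ : Finset (Finset V)) : Fintype (CFace Δ) :=
  inferInstanceAs (Fintype (Option {σ : Finset V // σ ∈ Δ}))

/-- The top element. -/
def ctop (Δ : Finset (Finset V)) : CFace Δ := (⊤ : WithTop {σ : Finset V // σ ∈ Δ})

/-- A face as an element of the face poset. -/
def cmk {Δ : Finset (Finset V)} (σ : Finset V) (h : σ ∈ Δ) : CFace Δ :=
  ((⟨σ, h⟩ : {σ : Finset V // σ ∈ Δ}) : WithTop {σ : Finset V // σ ∈ Δ})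

/-- The rank: the number of vertices of a face, and `d + 1` for the top element. -/
def rFace (d : ℕ) {Δ : Finset (Finset V)} : CFace Δ → ℕ
  | none => d + 1
  | some σ => σ.1.card

variable {Δ : Finset (Finset V)}

theorem cmk_lt_top (σ : Finset V) (h : σ ∈ Δ) : cmk σ h < ctop Δ := WithTop.coe_lt_top _

theorem not_top_lt (y : CFace Δ) : ¬ ctop Δ < y :=
  fun h => absurd h (WithTop.not_top_lt (a := (y : WithTop {σ : Finset V // σ ∈ Δ})))

theorem cmk_lt_cmk (σ τ : Finset V) (h : σ ∈ Δ) (h' : τ ∈ Δ) :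
    cmk σ h < cmk τ h' ↔ σ ⊂ τ :=
  WithTop.coe_lt_coe

theorem cases_face (y : CFace Δ) : y = ctop Δ ∨ ∃ σ, ∃ h : σ ∈ Δ, y = cmk σ h := by
  match y with
  | none => exact Or.inl rfl
  | some σ => exact Or.inr ⟨σ.1, σ.2, rfl⟩

theorem ranked_face {d : ℕ} (h0 : ∅ ∈ Δ) (hcard : ∀ σ ∈ Δ, σ.card ≤ d) :
    Ranked (rFace d) (cmk ∅ h0) (ctop Δ) (d + 1) where
  least y := by
    rcases cases_face y with rfl | ⟨σ, h, rfl⟩
    · exact (cmk_lt_top _ _).le
    · rcases (Finset.empty_subset σ).eq_or_ssubset with h1 | h1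
      · subst h1
        exact le_rfl
      · exact ((cmk_lt_cmk ∅ σ h0 h).mpr h1).le
  greatest y := by
    rcases cases_face y with rfl | ⟨σ, h, rfl⟩
    · exact le_rfl
    · exact (cmk_lt_top _ _).le
  rank_o := rfl
  rank_t := rfl
  lt x y hxy := by
    rcases cases_face x with rfl | ⟨σ, h, rfl⟩
    · exact absurd hxy (not_top_lt y)
    · rcases cases_face y with rfl | ⟨τ, h', rfl⟩
      · exact Nat.lt_succ_of_le (hcard σ h)
      · exact Finset.card_lt_card ((cmk_lt_cmk σ τ h h').mp hxy)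

theorem sum_face (F : CFace Δ → NC) :
    ∑ z, F z = F (ctop Δ) + ∑ σ : {σ : Finset V // σ ∈ Δ}, F (cmk σ.1 σ.2) :=
  Fintype.sum_option (α := {σ : Finset V // σ ∈ Δ}) F

theorem pIndex_face {d : ℕ} (h0 : ∅ ∈ Δ) (hΔ : ∀ s ∈ Δ, ∀ t, t ⊆ s → t ∈ Δ)
    (hcard : ∀ σ ∈ Δ, σ.card ≤ d) (e : ℕ) :
    (∀ τ (h : τ ∈ Δ), pIndex (rFace d) (cmk ∅ h0) (cmk τ h) e = PsiR e (flagF τ.ssubsets)) ∧
      pIndex (rFace d) (cmk ∅ h0) (ctop Δ) e = PsiR e (flagF Δ) := by
  classical
  have hR := ranked_face h0 hcard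
  induction e with
  | zero =>
    refine ⟨fun τ h => ?_, ?_⟩
    · rw [pIndex_zero, PsiR, flagF_empty]
      simp
    · rw [pIndex_zero, PsiR, flagF_empty]
      simp
  | succ e ih =>
    have hpos : ∀ σ (h : σ ∈ Δ), σ.card = e + 1 → cmk ∅ h0 < cmk σ h := by
      intro σ h hc
      rw [cmk_lt_cmk]
      refine Finset.ssubset_iff_subset_ne.mpr ⟨Finset.empty_subset _, ?_⟩
      rintro rfl
      simp at hc
    refine ⟨fun τ hτ => ?_, ?_⟩
    · rw [pIndex_succ hR.lt, PsiR_flagF_succ (ssubsets_down τ), ih.1 τ hτ, sum_face,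
        if_neg (fun h => not_top_lt _ h.2.1), zero_add]
      congr 2
      have h1 : ∀ σ : {σ : Finset V // σ ∈ Δ}, (if cmk ∅ h0 < cmk σ.1 σ.2 ∧
          cmk σ.1 σ.2 < cmk τ hτ ∧ rFace d (cmk σ.1 σ.2) = e + 1 then
            pIndex (rFace d) (cmk ∅ h0) (cmk σ.1 σ.2) e else 0) =
          (fun ρ : Finset V => if ρ ⊂ τ ∧ ρ.card = e + 1 then PsiR e (flagF ρ.ssubsets) else 0)
            σ.1 := by
        intro σ
        have h2 : (cmk ∅ h0 < cmk σ.1 σ.2 ∧ cmk σ.1 σ.2 < cmk τ hτ ∧
            rFace d (cmk σ.1 σ.2) = e + 1) ↔ (σ.1 ⊂ τ ∧ σ.1.card = e + 1) := by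
          constructor
          · rintro ⟨_, h3, h4⟩
            exact ⟨(cmk_lt_cmk _ _ _ _).mp h3, h4⟩
          · rintro ⟨h3, h4⟩
            exact ⟨hpos _ _ h4, (cmk_lt_cmk _ _ _ _).mpr h3, h4⟩
        simp only [h2, ih.1 σ.1 σ.2]
      rw [Finset.sum_congr rfl fun σ _ => h1 σ]
      rw [Finset.sum_coe_sort Δ (fun ρ : Finset V =>
        if ρ ⊂ τ ∧ ρ.card = e + 1 then PsiR e (flagF ρ.ssubsets) else 0), ← Finset.sum_filter]
      refine Finset.sum_congr ?_ fun _ _ => rfl
      ext ρ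
      rw [Finset.mem_filter, Finset.mem_filter, Finset.mem_ssubsets]
      constructor
      · rintro ⟨_, h3⟩
        exact h3
      · rintro h3
        exact ⟨hΔ τ hτ ρ h3.1.subset, h3⟩
    · rw [pIndex_succ hR.lt, PsiR_flagF_succ hΔ, ih.2, sum_face,
        if_neg (fun h => not_top_lt _ h.2.1), zero_add]
      congr 2
      have h1 : ∀ σ : {σ : Finset V // σ ∈ Δ}, (if cmk ∅ h0 < cmk σ.1 σ.2 ∧
          cmk σ.1 σ.2 < ctop Δ ∧ rFace d (cmk σ.1 σ.2) = e + 1 then
            pIndex (rFace d) (cmk ∅ h0) (cmk σ.1 σ.2) e else 0) =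
          (fun ρ : Finset V => if ρ.card = e + 1 then PsiR e (flagF ρ.ssubsets) else 0)
            σ.1 := by
        intro σ
        have h2 : (cmk ∅ h0 < cmk σ.1 σ.2 ∧ cmk σ.1 σ.2 < ctop Δ ∧
            rFace d (cmk σ.1 σ.2) = e + 1) ↔ (σ.1.card = e + 1) := by
          constructor
          · rintro ⟨_, _, h4⟩
            exact h4
          · rintro h4
            exact ⟨hpos _ _ h4, cmk_lt_top _ _, h4⟩
        simp only [h2, ih.1 σ.1 σ.2]
      rw [Finset.sum_congr rfl fun σ _ => h1 σ]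
      rw [Finset.sum_coe_sort Δ (fun ρ : Finset V =>
        if ρ.card = e + 1 then PsiR e (flagF ρ.ssubsets) else 0), ← Finset.sum_filter]

theorem pIndex_cface {d : ℕ} (h0 : ∅ ∈ Δ) (hΔ : ∀ s ∈ Δ, ∀ t, t ⊆ s → t ∈ Δ)
    (hcard : ∀ σ ∈ Δ, σ.card ≤ d) :
    pIndex (rFace d) (cmk ∅ h0) (ctop Δ) d = abIndex d Δ := by
  rw [(pIndex_face h0 hΔ hcard d).2]
  exact (PsiR_eq d (flagF Δ)).symm

theorem pIndex_sets {n : ℕ} (e : ℕ) : ∀ y : Finset (Fin n),
    pIndex (Finset.card : Finset (Fin n) → ℕ) ∅ y e = PsiR e (flagF y.ssubsets) := by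
  classical
  induction e with
  | zero =>
    intro y
    rw [pIndex_zero, PsiR, flagF_empty]
    simp
  | succ e ih =>
    intro y
    rw [pIndex_succ (fun x y h => Finset.card_lt_card h), PsiR_flagF_succ (ssubsets_down y), ih]
    congr 2
    have h5 : (∑ F : Finset (Fin n), if F ∈ y.ssubsets.filter (fun F => F.card = e + 1) then
        PsiR e (flagF F.ssubsets) else 0) =
        ∑ F ∈ y.ssubsets.filter (fun F => F.card = e + 1), PsiR e (flagF F.ssubsets) := by
      rw [Finset.sum_ite_mem, Finset.univ_inter]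
    refine Eq.trans (Finset.sum_congr rfl fun F _ => ?_) h5
    have h3 : (∅ < F ∧ F < y ∧ F.card = e + 1) ↔
        F ∈ y.ssubsets.filter (fun F => F.card = e + 1) := by
      rw [Finset.mem_filter, Finset.mem_ssubsets]
      constructor
      · rintro ⟨_, h2, h3⟩
        exact ⟨h2, h3⟩
      · rintro ⟨h2, h3⟩
        refine ⟨?_, h2, h3⟩
        refine Finset.ssubset_iff_subset_ne.mpr ⟨Finset.empty_subset _, ?_⟩
        rintro rfl
        simp at h3
    by_cases h4 : ∅ < F ∧ F < y ∧ F.card = e + 1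
    · rw [if_pos h4, if_pos (h3.mp h4)]
      exact ih F
    · rw [if_neg h4, if_neg (fun h => h4 (h3.mpr h))]

end Complex

/-- The ab-index of the `d`-simplex: its faces are the subsets of a set with `d + 1` elements. -/
noncomputable def simplexIndex (d : ℕ) : NC :=
  pIndex (Finset.card : Finset (Fin (d + 1)) → ℕ) ∅ Finset.univ d

theorem simplexIndex_eq_abIndex (d : ℕ) : simplexIndex d = abIndex d (simplexBoundary d) := by
  rw [simplexIndex, pIndex_sets]
  exact (PsiR_eq d (flagF (simplexBoundary d))).symm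

theorem ranked_card (d : ℕ) :
    Ranked (Finset.card : Finset (Fin (d + 1)) → ℕ) ∅ Finset.univ (d + 1) where
  least y := Finset.empty_subset y
  greatest y := Finset.subset_univ y
  rank_o := rfl
  rank_t := by simp
  lt x y h := Finset.card_lt_card h

/-- subsets as indicator functions. -/
def boolIso (n : ℕ) : (Fin n → Bool) ≃o Finset (Fin n) where
  toFun f := Finset.univ.filter fun i => f i = true
  invFun s := fun i => decide (i ∈ s)
  left_inv f := by
    funext i
    simp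
  right_inv s := by
    ext i
    simp
  map_rel_iff' := by
    intro f g
    change (Finset.univ.filter fun i => f i = true) ⊆ (Finset.univ.filter fun i => g i = true) ↔ _
    rw [Pi.le_def]
    constructor
    · intro h i
      have := @h i
      simp only [Finset.mem_filter, Finset.mem_univ, true_and] at this
      revert this
      cases f i <;> cases g i <;> simp
    · intro h i
      have := h i
      simp only [Finset.mem_filter, Finset.mem_univ, true_and]
      revert this
      cases f i <;> cases g i <;> simp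

theorem simplexIndex_eq_psi (d : ℕ) :
    simplexIndex d = psi (cnt (n := d + 1)) 0 d (fun _ => false) := by
  rw [simplexIndex, pIndex_eq_psi (ranked_card d)]
  have h1 := psi_iso (boolIso (d + 1)) cnt Finset.card (by
    intro f
    change (Finset.univ.filter fun i => f i = true).card = ∑ i, (f i).toNat
    rw [Finset.card_filter]
    refine Finset.sum_congr rfl fun i _ => ?_
    cases f i <;> rfl) d 0 (fun _ => false)
  rw [← h1]
  congr 1
  ext i
  simp [boolIso]

end Pool.Agent.MPfdde87PP
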