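import Pool.Agent.Lib.MP_fdde87_co_PP.Prism

/-!
The ab-index of a prism and of a pyramid.
-/

set_option autoImplicit false

namespace Pool.Agent.MPfdde87PP

open Pool.Agent.MPfdde87

section

variable {L : Type} [PartialOrder L] [Fintype L] {r : L → ℕ}

open scoped Classical in
theorem psi_prism_bot {o t : L} {d : ℕ} (h : Ranked r o t (d + 1)) (m : ℕ) :
    ∀ k : ℕ, k + m = d → psi (rPrism o r) k (m + 1) (pbot o) =
      psi r k m o * (va + vb) + (der (psi r k m o) + der (psi r k m o) +
        psi r k m o * (va + vb) - (va + vb) * psi r k m o) +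
        ∑ y : L, if y ≠ o ∧ r y = k then vb * psi r k m y else 0 := by
  induction m with
  | zero =>
    intro k hk
    obtain rfl : k = d := by omega
    rw [psi_succ, sum_prism]
    simp only [psi_zero, der_one, rPrism_mk, bot_lt_mk, true_and, rPrism_bot, lt_irrefl,
      false_and, if_false, reduceCtorEq, add_zero, if_true, mul_one, one_mul]
    rw [Finset.sum_add_distrib, Finset.sum_add_distrib]
    have h1 : (∑ y : {x : L // x ≠ o}, if r y = k + 1 then vb else 0) = vb := by
      have h2 := sum_ne o (fun y : L => if o < y ∧ r y = k + 1 then vb else 0) (by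
        rw [if_neg]
        rintro ⟨h3, _⟩
        exact lt_irrefl _ h3)
      rw [h.sum_top (by rw [h.rank_o]; omega) (fun _ => vb)] at h2
      refine (Finset.sum_congr rfl fun y _ => ?_).trans h2
      have h3 : o < (y : L) := lt_of_le_of_ne (h.least y) (Ne.symm y.2)
      simp only [h3, true_and]
    have h4 : (∑ y : {x : L // x ≠ o}, if r y + 1 = k + 1 then vb else 0) =
        ∑ y : L, if y ≠ o ∧ r y = k then vb else 0 := by
      rw [← sum_ne o (fun y : L => if y ≠ o ∧ r y = k then vb else 0) (by simp)]
      refine Finset.sum_congr rfl fun y _ => ?_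
      have h5 : (y : L) ≠ o := y.2
      simp only [h5, ne_eq, not_false_eq_true, true_and, Nat.add_right_cancel_iff]
    rw [h1, h4]
    noncomm_ring
  | succ m ih =>
    intro k hk
    rw [psi_succ (rPrism o r), sum_prism, ih (k + 1) (by omega)]
    simp only [rPrism_mk, bot_lt_mk, true_and, lt_irrefl, false_and, if_false, reduceCtorEq,
      add_zero, if_true, zero_add, Nat.add_right_cancel_iff,
      psi_prism_full o r h.least, psi_prism_side o r h.least .left (by decide),
      psi_prism_side o r h.least .right (by decide)]
    have h1 : (∑ y : {x : L // x ≠ o}, ((if r y = k + 1 then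
          vb * psi (rPyr r) (k + 1) (m + 1) ((y : L), false) else 0) +
        (if r y = k + 1 then vb * psi (rPyr r) (k + 1) (m + 1) ((y : L), false) else 0) +
        (if r y = k then vb * psi r k (m + 1) y else 0))) =
        (∑ y : L, if o < y ∧ r y = k + 1 then
          vb * (psi r (k + 1) m y * (va + vb) + der (psi r (k + 1) m y)) else 0) +
        (∑ y : L, if o < y ∧ r y = k + 1 then
          vb * (psi r (k + 1) m y * (va + vb) + der (psi r (k + 1) m y)) else 0) +
        ∑ y : L, if y ≠ o ∧ r y = k then vb * psi r k (m + 1) y else 0 := by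
      rw [← sum_ne o (fun y : L => if y ≠ o ∧ r y = k then vb * psi r k (m + 1) y else 0)
        (by simp), ← sum_ne o (fun y : L => if o < y ∧ r y = k + 1 then
          vb * (psi r (k + 1) m y * (va + vb) + der (psi r (k + 1) m y)) else 0) (by simp),
        ← Finset.sum_add_distrib, ← Finset.sum_add_distrib]
      refine Finset.sum_congr rfl fun y _ => ?_
      have h2 : (y : L) ≠ o := y.2
      have h3 : o < (y : L) := lt_of_le_of_ne (h.least y) (Ne.symm y.2)
      simp only [h2, h3, ne_eq, not_false_eq_true, true_and]
      by_cases hy : r y = k + 1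
      · have h4 : psi (rPyr r) (k + 1) (m + 1) ((y : L), false) =
            psi r (k + 1) m y * (va + vb) + der (psi r (k + 1) m y) := by
          rw [psi_pyr_false h m (k + 1) y (by omega) (by omega)]
          have h5 : (∑ z : L, if (y : L) ≤ z ∧ r z = k + 1 then vb * psi r (k + 1) m z else 0) =
              vb * psi r (k + 1) m y := by
            rw [Finset.sum_eq_single (y : L)]
            · rw [if_pos ⟨le_rfl, hy⟩]
            · intro z _ hz
              rw [if_neg]
              rintro ⟨h3, h4⟩
              have := h.lt y z (lt_of_le_of_ne h3 (Ne.symm hz))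
              omega
            · intro h3
              exact absurd (Finset.mem_univ (y : L)) h3
          rw [h5, sub_self, add_zero]
        simp only [hy, if_true, h4]
      · simp only [hy, if_false]
    rw [h1]
    have h2 : (∑ y : L, if y ≠ o ∧ r y = k + 1 then vb * psi r (k + 1) m y else 0) =
        ∑ y : L, if o < y ∧ r y = k + 1 then vb * psi r (k + 1) m y else 0 := by
      refine Finset.sum_congr rfl fun y _ => ?_
      have h3 : y ≠ o ↔ o < y := by
        constructor
        · intro h4
          exact lt_of_le_of_ne (h.least y) (Ne.symm h4)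
        · intro h4
          exact h4.ne'
      simp only [h3]
    have h5 : (∑ y : L, if o < y ∧ r y = k + 1 then
          vb * (psi r (k + 1) m y * (va + vb) + der (psi r (k + 1) m y)) else 0) =
        (∑ y : L, if o < y ∧ r y = k + 1 then vb * psi r (k + 1) m y else 0) * (va + vb) +
        (der (∑ y : L, if o < y ∧ r y = k + 1 then vb * psi r (k + 1) m y else 0) -
        va * ∑ y : L, if o < y ∧ r y = k + 1 then vb * psi r (k + 1) m y else 0) := by
      rw [der_sum, Finset.sum_mul, Finset.mul_sum, ← Finset.sum_sub_distrib,
        ← Finset.sum_add_distrib]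
      refine Finset.sum_congr rfl fun y _ => ?_
      split_ifs
      · rw [der_mul, der_vb]
        noncomm_ring
      · rw [der_zero]
        simp
    rw [h2, h5, psi_succ r k m o]
    set X := psi r (k + 1) m o
    set Y := ∑ y : L, if o < y ∧ r y = k + 1 then vb * psi r (k + 1) m y else 0
    rw [der_add, der_mul, der_sub, der_va, der_vb]
    noncomm_ring

theorem psi_prism {o t : L} {d : ℕ} (h : Ranked r o t (d + 1)) :
    psi (rPrism o r) 0 (d + 1) (pbot o) =
      psi r 0 d o * (va + vb) + (der (psi r 0 d o) + der (psi r 0 d o) +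
        psi r 0 d o * (va + vb) - (va + vb) * psi r 0 d o) := by
  classical
  rw [psi_prism_bot h d 0 (by omega)]
  rw [Finset.sum_eq_zero, add_zero]
  intro y _
  rw [if_neg]
  rintro ⟨h1, h2⟩
  have := h.lt o y (lt_of_le_of_ne (h.least y) (Ne.symm h1))
  omega

theorem psi_pyr {o t : L} {d : ℕ} (h : Ranked r o t (d + 1)) :
    psi (rPyr r) 0 (d + 1) (o, false) =
      psi r 0 d o * (va + vb) + der (psi r 0 d o) := by
  classical
  rw [psi_pyr_false h d 0 o (by omega) (by rw [h.rank_o])]
  rw [Finset.sum_eq_single o]
  · rw [if_pos ⟨le_rfl, h.rank_o⟩, sub_self, add_zero]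
  · intro y _ hy
    rw [if_neg]
    rintro ⟨h1, h2⟩
    have := h.lt o y (lt_of_le_of_ne h1 (Ne.symm hy))
    omega
  · intro h1
    exact absurd (Finset.mem_univ o) h1

end

end Pool.Agent.MPfdde87PP
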