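import Pool.Agent.Lib.MP_fdde87_co_PP.Simplex
import Pool.Agent.Lib.MP_fdde87_co.Chain

/-!
The flag vectors and the ab-index of a poset with a rank function.
-/

set_option autoImplicit false

namespace Pool.Agent.MPfdde87PP

open Pool.Agent.MPfdde87

section

variable {L : Type} [PartialOrder L] [Fintype L] (r : L → ℕ)

open scoped Classical in
/-- The chains of elements strictly between `x` and `y` whose set of dimensions (rank minus one)
is exactly `S`. -/
noncomputable def pchains (x y : L) (S : Finset ℕ) : Finset (Finset L) :=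
  Finset.univ.filter fun C => (∀ z ∈ C, x < z ∧ z < y) ∧ (∀ z ∈ C, ∀ w ∈ C, z ≤ w ∨ w ≤ z) ∧
    C.image (fun z => r z - 1) = S

/-- The flag `f`-vector of the interval from `x` to `y`. -/
noncomputable def pflagF (x y : L) (S : Finset ℕ) : ℤ := ((pchains r x y S).card : ℤ)

/-- The flag `h`-vector of the interval from `x` to `y`. -/
noncomputable def pflagH (x y : L) (S : Finset ℕ) : ℤ :=
  ∑ T ∈ S.powerset, (-1 : ℤ) ^ (S \ T).card * pflagF r x y T

/-- The ab-index of the interval from `x` to `y` (of rank `d + 1`). -/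
noncomputable def pIndex (x y : L) (d : ℕ) : NC :=
  ∑ S ∈ (Finset.range d).powerset, pflagH r x y S • uS d S

theorem pIndex_eq (x y : L) (d : ℕ) : pIndex r x y d = PsiR d (pflagF r x y) :=
  PsiR_eq d (pflagF r x y)

theorem mem_pchains {x y : L} {S : Finset ℕ} {C : Finset L} : C ∈ pchains r x y S ↔
    (∀ z ∈ C, x < z ∧ z < y) ∧ (∀ z ∈ C, ∀ w ∈ C, z ≤ w ∨ w ≤ z) ∧
    (∀ s, s ∈ S ↔ ∃ z ∈ C, r z - 1 = s) := by
  classical
  unfold pchains
  simp only [Finset.mem_filter, Finset.mem_univ, true_and]
  refine and_congr_right fun _ => and_congr_right fun _ => ?_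
  constructor
  · rintro rfl s
    rw [Finset.mem_image]
  · intro h
    ext s
    rw [h s, Finset.mem_image]

theorem pflagF_empty (x y : L) : pflagF r x y ∅ = 1 := by
  classical
  have : pchains r x y ∅ = {∅} := by
    ext C
    rw [mem_pchains, Finset.mem_singleton]
    constructor
    · rintro ⟨_, _, h⟩
      by_contra hne
      obtain ⟨z, hz⟩ := Finset.nonempty_iff_ne_empty.mpr hne
      exact Finset.notMem_empty _ ((h _).mpr ⟨z, hz, rfl⟩)
    · rintro rfl
      simp
  rw [pflagF, this]
  simp

variable {r}

open scoped Classical in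
theorem pflagF_insert (hr : ∀ x y : L, x < y → r x < r y) (x y : L) (d : ℕ) (S : Finset ℕ)
    (hS : S ⊆ Finset.range d) : pflagF r x y (insert d S) =
      ∑ F ∈ Finset.univ.filter (fun F => x < F ∧ F < y ∧ r F = d + 1), pflagF r x F S := by
  have hdS : ∀ s ∈ S, s < d := fun s hs => Finset.mem_range.mp (hS hs)
  have h1 : pchains r x y (insert d S) =
      (Finset.univ.filter (fun F => x < F ∧ F < y ∧ r F = d + 1)).biUnion
      (fun F => (pchains r x F S).image (fun C => insert F C)) := by
    ext C
    simp only [Finset.mem_biUnion, Finset.mem_filter, Finset.mem_image, Finset.mem_univ, true_and]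
    constructor
    · intro hC
      rw [mem_pchains] at hC
      obtain ⟨hC1, hC2, hC3⟩ := hC
      obtain ⟨F, hF, hFd⟩ := (hC3 d).mp (Finset.mem_insert_self _ _)
      have hFpos : 0 < r F := lt_of_le_of_lt (Nat.zero_le _) (hr _ _ (hC1 F hF).1)
      have hFcard : r F = d + 1 := by omega
      have hlt : ∀ G ∈ C.erase F, G < F := by
        intro G hG
        rw [Finset.mem_erase] at hG
        have hGcard : r G - 1 ∈ insert d S := (hC3 _).mpr ⟨G, hG.2, rfl⟩
        rw [Finset.mem_insert] at hGcard
        have hGle : r G ≤ r F := by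
          rcases hGcard with h | h
          · omega
          · have := hdS _ h
            omega
        rcases hC2 F hF G hG.2 with h | h
        · have := hr F G (lt_of_le_of_ne h (Ne.symm hG.1))
          omega
        · exact lt_of_le_of_ne h hG.1
      refine ⟨F, ⟨(hC1 F hF).1, (hC1 F hF).2, hFcard⟩, C.erase F, ?_, Finset.insert_erase hF⟩
      rw [mem_pchains]
      refine ⟨?_, ?_, ?_⟩
      · intro G hG
        exact ⟨(hC1 G (Finset.mem_of_mem_erase hG)).1, hlt G hG⟩
      · intro G hG H hH
        exact hC2 G (Finset.mem_of_mem_erase hG) H (Finset.mem_of_mem_erase hH)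
      · intro s
        constructor
        · intro hs
          obtain ⟨G, hG, hGs⟩ := (hC3 s).mp (Finset.mem_insert_of_mem hs)
          refine ⟨G, ?_, hGs⟩
          rw [Finset.mem_erase]
          refine ⟨?_, hG⟩
          rintro rfl
          have := hdS s hs
          omega
        · rintro ⟨G, hG, hGs⟩
          have h2 := hr _ _ (hlt G hG)
          have h5 : 0 < r G :=
            lt_of_le_of_lt (Nat.zero_le _) (hr _ _ (hC1 G (Finset.mem_of_mem_erase hG)).1)
          have h6 : s ∈ insert d S := (hC3 s).mpr ⟨G, Finset.mem_of_mem_erase hG, hGs⟩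
          rw [Finset.mem_insert] at h6
          rcases h6 with h6 | h6
          · omega
          · exact h6
    · rintro ⟨F, ⟨hF1, hF2, hFcard⟩, C', hC', rfl⟩
      rw [mem_pchains] at hC' ⊢
      obtain ⟨h1, h2, h3⟩ := hC'
      refine ⟨?_, ?_, ?_⟩
      · intro G hG
        rw [Finset.mem_insert] at hG
        rcases hG with rfl | hG
        · exact ⟨hF1, hF2⟩
        · exact ⟨(h1 G hG).1, (h1 G hG).2.trans hF2⟩
      · intro G hG H hH
        rw [Finset.mem_insert] at hG hH
        rcases hG with rfl | hG
        · rcases hH with rfl | hH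
          · exact Or.inl le_rfl
          · exact Or.inr (h1 H hH).2.le
        · rcases hH with rfl | hH
          · exact Or.inl (h1 G hG).2.le
          · exact h2 G hG H hH
      · intro s
        rw [Finset.mem_insert, h3]
        constructor
        · rintro (rfl | ⟨z, hz, hzs⟩)
          · exact ⟨F, Finset.mem_insert_self _ _, by omega⟩
          · exact ⟨z, Finset.mem_insert_of_mem hz, hzs⟩
        · rintro ⟨z, hz, hzs⟩
          rw [Finset.mem_insert] at hz
          rcases hz with rfl | hz
          · exact Or.inl (by omega)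
          · exact Or.inr ⟨z, hz, hzs⟩
  rw [pflagF, h1, Finset.card_biUnion]
  · rw [Nat.cast_sum]
    refine Finset.sum_congr rfl fun F hF => ?_
    rw [pflagF, Finset.card_image_of_injOn]
    intro C hC C' hC' h
    rw [Finset.mem_coe, mem_pchains] at hC hC'
    have hFC : F ∉ C := fun h => lt_irrefl _ (hC.1 F h).2
    have hFC' : F ∉ C' := fun h => lt_irrefl _ (hC'.1 F h).2
    simp only at h
    rw [← Finset.erase_insert hFC, h, Finset.erase_insert hFC']
  · intro F hF F' hF' hne
    rw [Function.onFun, Finset.disjoint_left]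
    intro C hC hC'
    rw [Finset.mem_image] at hC hC'
    obtain ⟨C1, hC1, rfl⟩ := hC
    obtain ⟨C2, hC2, h⟩ := hC'
    have h2 : F' ∈ insert F C1 := by
      rw [← h]
      exact Finset.mem_insert_self _ _
    rw [Finset.mem_insert] at h2
    rcases h2 with h2 | h2
    · exact hne h2.symm
    · rw [mem_pchains] at hC1
      have h4 := hr _ _ (hC1.1 F' h2).2
      rw [Finset.mem_coe, Finset.mem_filter] at hF hF'
      omega

open scoped Classical in
/-- recursion of the ab-index at the top. -/
theorem pIndex_succ (hr : ∀ x y : L, x < y → r x < r y) (x y : L) (d : ℕ) :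
    pIndex r x y (d + 1) = pIndex r x y d * (va - vb) +
      (∑ F : L, if x < F ∧ F < y ∧ r F = d + 1 then pIndex r x F d else 0) * vb := by
  rw [pIndex_eq, PsiR, pIndex_eq]
  congr 2
  rw [PsiR_congr d (fun S => pflagF r x y (insert d S)) (fun S =>
    ∑ F ∈ Finset.univ.filter (fun F => x < F ∧ F < y ∧ r F = d + 1), pflagF r x F S)
    (fun S hS => pflagF_insert hr x y d S hS), PsiR_sum, Finset.sum_filter]
  refine Finset.sum_congr rfl fun F _ => ?_
  rw [pIndex_eq]

theorem pIndex_zero (x y : L) : pIndex r x y 0 = 1 := by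
  rw [pIndex_eq, PsiR, pflagF_empty]
  simp

open scoped Classical in
/-- weighted chains in an interval, by recursion from below. -/
noncomputable def chi (r : L → ℕ) : ℕ → ℕ → L → L → NC
  | _, 0, _, _ => 1
  | k, m + 1, x, y => (va - vb) * chi r (k + 1) m x y +
      ∑ z : L, if x < z ∧ z < y ∧ r z = k + 1 then vb * chi r (k + 1) m z y else 0

open scoped Classical in
theorem chi_succ (k m : ℕ) (x y : L) : chi r k (m + 1) x y = (va - vb) * chi r (k + 1) m x y +
    ∑ z : L, if x < z ∧ z < y ∧ r z = k + 1 then vb * chi r (k + 1) m z y else 0 := rfl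

open scoped Classical in
theorem chi_top (m : ℕ) : ∀ (k : ℕ) (x y : L), chi r k (m + 1) x y =
    chi r k m x y * (va - vb) +
      ∑ w : L, if x < w ∧ w < y ∧ r w = k + m + 1 then chi r k m x w * vb else 0 := by
  induction m with
  | zero =>
    intro k x y
    rw [chi_succ]
    simp only [chi, mul_one, one_mul, add_zero]
  | succ m ih =>
    intro k x y
    rw [chi_succ k (m + 1) x y, ih (k + 1) x y, chi_succ k m x y]
    have e : k + 1 + m + 1 = k + (m + 1) + 1 := by omega
    have h1 : (∑ z : L, if x < z ∧ z < y ∧ r z = k + 1 then vb * chi r (k + 1) (m + 1) z y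
        else 0) =
        (∑ z : L, if x < z ∧ z < y ∧ r z = k + 1 then vb * chi r (k + 1) m z y else 0) *
          (va - vb) +
        ∑ z : L, ∑ w : L, if (x < z ∧ z < y ∧ r z = k + 1) ∧ (z < w ∧ w < y ∧
          r w = k + (m + 1) + 1) then vb * chi r (k + 1) m z w * vb else 0 := by
      rw [Finset.sum_mul, ← Finset.sum_add_distrib]
      refine Finset.sum_congr rfl fun z _ => ?_
      by_cases hz : x < z ∧ z < y ∧ r z = k + 1
      · simp only [hz, if_true, true_and]
        rw [ih (k + 1) z y, e, mul_add, Finset.mul_sum, mul_assoc]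
        congr 1
        refine Finset.sum_congr rfl fun w _ => ?_
        split_ifs
        · rw [mul_assoc]
        · rw [mul_zero]
      · simp only [hz, if_false, false_and, Finset.sum_const_zero]
        simp
    have h2 : (∑ w : L, if x < w ∧ w < y ∧ r w = k + (m + 1) + 1 then
          chi r k (m + 1) x w * vb else 0) =
        (va - vb) * (∑ w : L, if x < w ∧ w < y ∧ r w = k + (m + 1) + 1 then
          chi r (k + 1) m x w * vb else 0) +
        ∑ w : L, ∑ z : L, if (x < z ∧ z < y ∧ r z = k + 1) ∧ (z < w ∧ w < y ∧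
          r w = k + (m + 1) + 1) then vb * chi r (k + 1) m z w * vb else 0 := by
      rw [Finset.mul_sum, ← Finset.sum_add_distrib]
      refine Finset.sum_congr rfl fun w _ => ?_
      by_cases hw : x < w ∧ w < y ∧ r w = k + (m + 1) + 1
      · rw [if_pos hw, if_pos hw, chi_succ k m x w, add_mul, Finset.sum_mul, mul_assoc]
        congr 1
        refine Finset.sum_congr rfl fun z _ => ?_
        have h3 : (x < z ∧ z < w ∧ r z = k + 1) ↔
            ((x < z ∧ z < y ∧ r z = k + 1) ∧ (z < w ∧ w < y ∧ r w = k + (m + 1) + 1)) := by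
          constructor
          · rintro ⟨h4, h5, h6⟩
            exact ⟨⟨h4, h5.trans hw.2.1, h6⟩, h5, hw.2⟩
          · rintro ⟨⟨h4, _, h6⟩, h5, _⟩
            exact ⟨h4, h5, h6⟩
        by_cases h4 : x < z ∧ z < w ∧ r z = k + 1
        · rw [if_pos h4, if_pos (h3.mp h4)]
        · rw [if_neg h4, if_neg (fun h => h4 (h3.mpr h)), zero_mul]
      · rw [if_neg hw, if_neg hw, mul_zero, zero_add, Finset.sum_eq_zero]
        intro z _
        rw [if_neg]
        rintro ⟨⟨h4, _, _⟩, h5, h6⟩
        exact hw ⟨h4.trans h5, h6⟩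
    rw [h1, h2, Finset.sum_comm, e]
    noncomm_ring

theorem pIndex_eq_chi (hr : ∀ x y : L, x < y → r x < r y) (d : ℕ) : ∀ x y : L,
    pIndex r x y d = chi r 0 d x y := by
  classical
  induction d with
  | zero => intro x y; rw [pIndex_zero]; rfl
  | succ d ih =>
    intro x y
    rw [pIndex_succ hr, chi_top, ih, Finset.sum_mul]
    congr 1
    refine Finset.sum_congr rfl fun w _ => ?_
    rw [zero_add]
    split_ifs
    · rw [ih]
    · rw [zero_mul]

theorem chi_eq_psi {o t : L} {d : ℕ} (h : Ranked r o t (d + 1)) (m : ℕ) : ∀ (k : ℕ) (x : L),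
    k + m ≤ d → chi r k m x t = psi r k m x := by
  classical
  induction m with
  | zero => intro k x _; rfl
  | succ m ih =>
    intro k x hk
    rw [chi_succ, psi_succ, ih (k + 1) x (by omega)]
    congr 1
    refine Finset.sum_congr rfl fun z _ => ?_
    have h1 : (x < z ∧ z < t ∧ r z = k + 1) ↔ (x < z ∧ r z = k + 1) := by
      constructor
      · rintro ⟨h1, _, h2⟩
        exact ⟨h1, h2⟩
      · rintro ⟨h1, h2⟩
        refine ⟨h1, lt_of_le_of_ne (h.greatest z) ?_, h2⟩
        rintro rfl
        rw [h.rank_t] at h2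
        omega
    simp only [h1, ih (k + 1) z (by omega)]

theorem pIndex_eq_psi {o t : L} {d : ℕ} (h : Ranked r o t (d + 1)) :
    pIndex r o t d = psi r 0 d o := by
  rw [pIndex_eq_chi h.lt, chi_eq_psi h d 0 o (by omega)]

end

end Pool.Agent.MPfdde87PP
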