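import Pool.Agent.Lib.MP_fdde87_co_PP.Bot

/-!
Ehrenborg's inequality for pyramids and prisms, on the level of ab-polynomials.
-/

set_option autoImplicit false

namespace Pool.Agent.MPfdde87PP

open Pool.Agent.MPfdde87

/-- the coefficients of the cd-index of the simplex. -/
def sx : ℕ → List Letter → ℤ
  | 0 => fun w => if w = [] then 1 else 0
  | d + 1 => fun w => pyrC w (sx d)

theorem mt_hom {n : ℕ} {φ : List Letter → ℤ} (h : ∀ w, degW w ≠ n → φ w = 0) (w : List Letter)
    (hw : degW w ≠ n) : mt φ w = 0 := by
  match w with
  | [] => exact h _ hw
  | .c :: _ => rfl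
  | .d :: t => exact h _ hw

theorem pyrC_hom (w : List Letter) : ∀ (n : ℕ) (φ : List Letter → ℤ),
    (∀ w, degW w ≠ n → φ w = 0) → degW w ≠ n + 1 → pyrC w φ = 0 := by
  induction w with
  | nil => intro n φ _ _; rfl
  | cons x t ih =>
    intro n φ h hw
    cases x with
    | c =>
      have h1 : degW (.c :: t) = 1 + degW t := degW_cons _ _
      have h2 : pyrC t (fun w => φ (.c :: w)) = 0 := by
        rcases Nat.eq_zero_or_pos n with h0 | h0
        · have h3 : (fun w => φ (.c :: w)) = fun _ => 0 := by
            funext w
            apply h
            rw [degW_cons]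
            simp only [Letter.deg]
            omega
          rw [h3]
          clear ih h1 hw h3
          induction t with
          | nil => rfl
          | cons y t ih =>
            cases y with
            | c =>
              change pyrC t (fun _ => 0) + mt (fun _ => 0) t = 0
              rw [ih, zero_add]
              match t with
              | [] => rfl
              | .c :: _ => rfl
              | .d :: _ => rfl
            | d =>
              change pyrC t (fun _ => 0) + 0 = 0
              rw [ih, add_zero]
        · apply ih (n - 1)
          · intro w hw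
            apply h
            rw [degW_cons]
            simp only [Letter.deg]
            omega
          · omega
      have h4 : mt φ t = 0 := mt_hom h t (by omega)
      change pyrC t (fun w => φ (.c :: w)) + mt φ t = 0
      rw [h2, h4, add_zero]
    | d =>
      have h1 : degW (.d :: t) = 2 + degW t := degW_cons _ _
      have h2 : pyrC t (fun w => φ (.d :: w)) = 0 := by
        rcases Nat.lt_or_ge n 2 with h0 | h0
        · have h3 : (fun w => φ (.d :: w)) = fun _ => 0 := by
            funext w
            apply h
            rw [degW_cons]
            simp only [Letter.deg]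
            omega
          rw [h3]
          clear ih h1 hw h3
          induction t with
          | nil => rfl
          | cons y t ih =>
            cases y with
            | c =>
              change pyrC t (fun _ => 0) + mt (fun _ => 0) t = 0
              rw [ih, zero_add]
              match t with
              | [] => rfl
              | .c :: _ => rfl
              | .d :: _ => rfl
            | d =>
              change pyrC t (fun _ => 0) + 0 = 0
              rw [ih, add_zero]
        · apply ih (n - 2)
          · intro w hw
            apply h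
            rw [degW_cons]
            simp only [Letter.deg]
            omega
          · omega
      have h4 : φ (.c :: t) = 0 := by
        apply h
        rw [degW_cons]
        simp only [Letter.deg]
        omega
      change pyrC t (fun w => φ (.d :: w)) + φ (.c :: t) = 0
      rw [h2, h4, add_zero]

theorem sx_hom (d : ℕ) : ∀ w, degW w ≠ d → sx d w = 0 := by
  induction d with
  | zero =>
    intro w hw
    change (if w = [] then (1 : ℤ) else 0) = 0
    rw [if_neg]
    rintro rfl
    exact hw rfl
  | succ d ih =>
    intro w hw
    exact pyrC_hom w d (sx d) ih hw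

theorem sx_nonneg (d : ℕ) : Nonneg (sx d) := by
  induction d with
  | zero =>
    intro w
    change (0 : ℤ) ≤ if w = [] then 1 else 0
    split_ifs <;> omega
  | succ d ih => exact fun w => pyrC_nonneg w _ ih

theorem sx_mono (d : ℕ) : Mono (sx d) := by
  induction d with
  | zero =>
    intro u v
    change (if (u ++ Letter.c :: Letter.c :: v) = [] then (1 : ℤ) else 0) ≤
      if (u ++ Letter.d :: v) = [] then 1 else 0
    rw [if_neg (by simp), if_neg (by simp)]
  | succ d ih => exact pyrC_mono ih (sx_nonneg d)

theorem pyrC_sub (w : List Letter) : ∀ φ ψ : List Letter → ℤ,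
    pyrC w (fun v => φ v - ψ v) = pyrC w φ - pyrC w ψ := by
  induction w with
  | nil => intro φ ψ; simp [pyrC]
  | cons x t ih =>
    intro φ ψ
    cases x with
    | c =>
      have h1 : mt (fun v => φ v - ψ v) t = mt φ t - mt ψ t := by
        match t with
        | [] => rfl
        | .c :: _ => simp [mt]
        | .d :: _ => rfl
      simp only [pyrC]
      rw [ih (fun w => φ (.c :: w)) (fun w => ψ (.c :: w)), h1]
      ring
    | d =>
      simp only [pyrC]
      rw [ih (fun w => φ (.d :: w)) (fun w => ψ (.d :: w))]
      ring

theorem tlC_sub (w : List Letter) (φ ψ : List Letter → ℤ) :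
    tlC (fun v => φ v - ψ v) w = tlC φ w - tlC ψ w := by
  match w with
  | [] => simp [tlC]
  | .c :: _ => rfl
  | .d :: _ => simp [tlC]

theorem Mono.ge {φ : List Letter → ℤ} (h : Mono φ) (w : List Letter) :
    ∀ u, φ (u ++ List.replicate (degW w) .c) ≤ φ (u ++ w) := by
  induction w with
  | nil => intro u; exact le_rfl
  | cons x w ih =>
    intro u
    cases x with
    | c =>
      have h1 : degW (.c :: w) = degW w + 1 := by
        rw [degW_cons]
        simp only [Letter.deg]
        omega
      rw [h1, List.replicate_succ]
      have h2 := ih (u ++ [.c])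
      simpa using h2
    | d =>
      have h1 : degW (.d :: w) = degW w + 2 := by
        rw [degW_cons]
        simp only [Letter.deg]
        omega
      rw [h1, List.replicate_succ, List.replicate_succ]
      have h2 := ih (u ++ [.d])
      have h3 := h u (List.replicate (degW w) .c)
      simp only [List.append_assoc, List.singleton_append] at h2
      exact h3.trans h2

/-- evaluation at `a = 1`, `b = 0`. -/
noncomputable def ev : NC →ₐ[ℤ] ℤ := FreeAlgebra.lift ℤ fun x => if x then (0 : ℤ) else 1

theorem ev_va : ev va = 1 := by simp [ev, va]

theorem ev_vb : ev vb = 0 := by simp [ev, vb]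

theorem ev_cdSum (n : ℕ) : ∀ φ : List Letter → ℤ,
    ev (cdSum n φ) = φ (List.replicate n .c) := by
  induction n using Nat.strong_induction_on with
  | _ n ih =>
    intro φ
    match n, ih with
    | 0, _ => rw [cdSum_zero, map_smul, map_one]; simp
    | 1, _ => rw [cdSum_one, map_smul, map_add, ev_va, ev_vb]; simp
    | n + 2, ih =>
      rw [cdSum_succ_succ, map_add, map_mul, map_mul, ih (n + 1) (by omega), map_add, map_add,
        map_mul, map_mul, ev_va, ev_vb]
      simp [List.replicate_succ]

theorem ev_psi {L : Type} [PartialOrder L] [Fintype L] (r : L → ℕ) (m : ℕ) : ∀ (k : ℕ) (x : L),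
    ev (psi r k m x) = 1 := by
  classical
  induction m with
  | zero => intro k x; rw [psi_zero, map_one]
  | succ m ih =>
    intro k x
    rw [psi_succ, map_add, map_mul, map_sub, ev_va, ev_vb, ih, map_sum]
    rw [Finset.sum_eq_zero]
    · simp
    · intro y _
      split_ifs
      · rw [map_mul, ev_vb, zero_mul]
      · rw [map_zero]

/-- the inequality in terms of coefficient functions. -/
def EhrC (d : ℕ) (φ : List Letter → ℤ) : Prop :=
  ∀ u v : List Letter, degW u + degW v + 2 = d →
    sx d (u ++ .d :: v) - sx d (u ++ .c :: .c :: v) ≤ φ (u ++ .d :: v) - φ (u ++ .c :: .c :: v)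

/-- truncation to the words of degree `d`. -/
def trunc (d : ℕ) (φ : List Letter → ℤ) (w : List Letter) : ℤ := if degW w = d then φ w else 0

theorem cdSum_trunc (d : ℕ) (φ : List Letter → ℤ) : cdSum d (trunc d φ) = cdSum d φ :=
  cdSum_congr d _ _ fun w hw => if_pos hw

theorem deg_cc (u v : List Letter) : degW (u ++ .c :: .c :: v) = degW u + degW v + 2 := by
  rw [degW_append, degW_cons, degW_cons]
  simp only [Letter.deg]
  omega

theorem deg_d (u v : List Letter) : degW (u ++ .d :: v) = degW u + degW v + 2 := by
  rw [degW_append, degW_cons]
  simp only [Letter.deg]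
  omega

theorem EhrC.mono {d : ℕ} {φ : List Letter → ℤ} (h : EhrC d φ) :
    Mono fun w => trunc d φ w - sx d w := by
  intro u v
  change trunc d φ (u ++ .c :: .c :: v) - sx d (u ++ .c :: .c :: v) ≤
    trunc d φ (u ++ .d :: v) - sx d (u ++ .d :: v)
  by_cases hd : degW u + degW v + 2 = d
  · have := h u v hd
    rw [trunc, trunc, if_pos ((deg_cc u v).trans hd), if_pos ((deg_d u v).trans hd)]
    linarith
  · rw [trunc, trunc, if_neg (by rw [deg_cc]; exact hd), if_neg (by rw [deg_d]; exact hd),
      sx_hom d _ (by rw [deg_cc]; exact hd), sx_hom d _ (by rw [deg_d]; exact hd)]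

theorem sx_c (d : ℕ) : sx d (List.replicate d .c) = 1 := by
  induction d with
  | zero => rfl
  | succ d ih =>
    have h1 : ev (cdSum (d + 1) (sx (d + 1))) = 1 := by
      have h2 := cdSum_pyrC d (sx d)
      change cdSum (d + 1) (sx (d + 1)) = _ at h2
      have h3 : ∀ p : NC, ev (der p) = 0 := by
        intro p
        induction p using FreeAlgebra.induction with
        | grade0 r =>
          have : der ((algebraMap ℤ NC) r) = 0 := by
            unfold der
            rw [AlgHom.commutes]
            rfl
          rw [this, map_zero]
        | grade1 x =>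
          cases x with
          | false =>
            have := der_va
            rw [va] at this
            rw [this, map_mul, ev_vb, zero_mul]
          | true =>
            have := der_vb
            rw [vb] at this
            rw [this, map_mul]
            have h4 : ev (FreeAlgebra.ι ℤ true) = 0 := ev_vb
            rw [h4, mul_zero]
        | mul p q hp hq => rw [der_mul, map_add, map_mul, map_mul, hp, hq]; simp
        | add p q hp hq => rw [der_add, map_add, hp, hq, add_zero]
      rw [h2, map_add, map_mul, h3, map_add, ev_va, ev_vb, ev_cdSum, ih]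
      simp
    rw [← h1, ev_cdSum]

theorem EhrC.nonneg {d : ℕ} {φ : List Letter → ℤ} (h : EhrC d φ)
    (h1 : φ (List.replicate d .c) = 1) : Nonneg fun w => trunc d φ w - sx d w := by
  intro w
  change 0 ≤ trunc d φ w - sx d w
  by_cases hd : degW w = d
  · have h2 := h.mono.ge w []
    simp only [List.nil_append] at h2
    rw [hd] at h2
    have h3 : degW (List.replicate d .c) = d := by
      simp [degW, Letter.deg]
    have h4 : trunc d φ (List.replicate d .c) - sx d (List.replicate d .c) = 0 := by
      rw [trunc, if_pos h3, h1, sx_c, sub_self]
    rw [h4] at h2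
    exact h2
  · rw [trunc, if_neg hd, sx_hom d w hd, sub_self]

theorem EhrC.pyr {d : ℕ} {φ : List Letter → ℤ} (h : EhrC d φ)
    (h1 : φ (List.replicate d .c) = 1) : EhrC (d + 1) fun w => pyrC w (trunc d φ) := by
  intro u v _
  have h2 := pyrC_mono h.mono (h.nonneg h1) u v
  simp only [pyrC_sub] at h2
  change pyrC _ (sx d) - pyrC _ (sx d) ≤ pyrC _ (trunc d φ) - pyrC _ (trunc d φ)
  linarith

theorem EhrC.prism {d : ℕ} {φ : List Letter → ℤ} (h : EhrC d φ)
    (h1 : φ (List.replicate d .c) = 1) :
    EhrC (d + 1) fun w => 2 * pyrC w (trunc d φ) - tlC (trunc d φ) w := by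
  intro u v _
  have h2 := pyrC_mono h.mono (h.nonneg h1) u v
  have h3 := pyrC_sub_tlC_mono h.mono (h.nonneg h1) u v
  have h4 := pyrC_sub_tlC_mono (sx_mono d) (sx_nonneg d) u v
  simp only [pyrC_sub, tlC_sub] at h2 h3
  change pyrC _ (sx d) - pyrC _ (sx d) ≤ (2 * pyrC _ (trunc d φ) - tlC (trunc d φ) _) -
    (2 * pyrC _ (trunc d φ) - tlC (trunc d φ) _)
  simp only at h4
  linarith

end Pool.Agent.MPfdde87PP
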