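import Pool.Agent.Lib.MP_fdde87_co_PP.Main

/-!
Ehrenborg's inequality for dual posets.
-/

set_option autoImplicit false

namespace Pool.Agent.MPfdde87PP

open Pool.Agent.MPfdde87

/-- reversal of noncommutative polynomials. -/
noncomputable def revHom : NC →ₐ[ℤ] NCᵐᵒᵖ :=
  FreeAlgebra.lift ℤ fun x => MulOpposite.op (FreeAlgebra.ι ℤ x)

/-- reversal of noncommutative polynomials. -/
noncomputable def rev (p : NC) : NC := (revHom p).unop

theorem rev_mul (p q : NC) : rev (p * q) = rev q * rev p := by
  unfold rev
  rw [map_mul, MulOpposite.unop_mul]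

theorem rev_add (p q : NC) : rev (p + q) = rev p + rev q := by
  unfold rev
  rw [map_add, MulOpposite.unop_add]

theorem rev_sub (p q : NC) : rev (p - q) = rev p - rev q := by
  unfold rev
  rw [map_sub, MulOpposite.unop_sub]

theorem rev_one : rev 1 = 1 := by
  unfold rev
  rw [map_one, MulOpposite.unop_one]

theorem rev_zero : rev 0 = 0 := by
  unfold rev
  rw [map_zero, MulOpposite.unop_zero]

theorem rev_smul (z : ℤ) (p : NC) : rev (z • p) = z • rev p := by
  unfold rev
  rw [map_smul, MulOpposite.unop_smul]

theorem rev_va : rev va = va := by simp [rev, revHom, va]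

theorem rev_vb : rev vb = vb := by simp [rev, revHom, vb]

theorem rev_sum {ι : Type*} (s : Finset ι) (f : ι → NC) :
    rev (∑ i ∈ s, f i) = ∑ i ∈ s, rev (f i) := by
  classical
  induction s using Finset.induction_on with
  | empty => simp [rev_zero]
  | insert i s hi ih => rw [Finset.sum_insert hi, Finset.sum_insert hi, rev_add, ih]

theorem rev_poly (x : Letter) : rev x.poly = x.poly := by
  cases x with
  | c => rw [Letter.poly, rev_add, rev_va, rev_vb]
  | d =>
    rw [Letter.poly, rev_add, rev_mul, rev_mul, rev_va, rev_vb, add_comm]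

theorem rev_polyW (w : List Letter) : rev (polyW w) = polyW w.reverse := by
  induction w with
  | nil => rw [List.reverse_nil, polyW_nil, rev_one]
  | cons x w ih =>
    rw [polyW_cons, rev_mul, ih, rev_poly, List.reverse_cons, polyW_append, polyW_cons, polyW_nil,
      mul_one]

theorem rev_cdSum (d : ℕ) (φ : List Letter → ℤ) :
    rev (cdSum d φ) = cdSum d (fun w => φ w.reverse) := by
  rw [cdSum, rev_sum, cdSum]
  refine Finset.sum_bij' (fun w _ => w.reverse) (fun w _ => w.reverse) ?_ ?_ ?_ ?_ ?_
  · intro w hw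
    rw [mem_cdWords] at hw ⊢
    rw [degW_reverse, hw]
  · intro w hw
    rw [mem_cdWords] at hw ⊢
    rw [degW_reverse, hw]
  · intro w _
    exact List.reverse_reverse w
  · intro w _
    exact List.reverse_reverse w
  · intro w _
    rw [rev_smul, rev_polyW, List.reverse_reverse]

section

variable {L : Type} [PartialOrder L] [Fintype L] {r : L → ℕ}

/-- The rank in the dual poset of a poset of rank `n`. -/
def rDual (n : ℕ) (r : L → ℕ) (x : Lᵒᵈ) : ℕ := n - r (OrderDual.ofDual x)

theorem Ranked.dual {o t : L} {n : ℕ} (h : Ranked r o t n) :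
    Ranked (rDual n r) (OrderDual.toDual t) (OrderDual.toDual o) n where
  least x := h.greatest (OrderDual.ofDual x)
  greatest x := h.least (OrderDual.ofDual x)
  rank_o := by
    change n - r t = 0
    rw [h.rank_t]
    omega
  rank_t := by
    change n - r o = n
    rw [h.rank_o]
    omega
  lt x y hxy := by
    change n - r (OrderDual.ofDual x) < n - r (OrderDual.ofDual y)
    have h1 := h.lt _ _ (OrderDual.ofDual_lt_ofDual.mpr hxy)
    have h2 := h.rank_le (OrderDual.ofDual x)
    omega

theorem chi_dual {o t : L} {d : ℕ} (h : Ranked r o t (d + 1)) (m : ℕ) : ∀ (k j : ℕ) (x y : L),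
    k + j + m = d → chi (rDual (d + 1) r) k m (OrderDual.toDual x) (OrderDual.toDual y) =
      rev (chi r j m y x) := by
  classical
  induction m with
  | zero => intro k j x y _; exact rev_one.symm
  | succ m ih =>
    intro k j x y hk
    rw [chi_succ, chi_top, ih (k + 1) j x y (by omega), rev_add, rev_mul, rev_sub, rev_va, rev_vb,
      rev_sum]
    congr 1
    refine Finset.sum_congr rfl fun z _ => ?_
    have h1 : (OrderDual.toDual x < z ∧ z < OrderDual.toDual y ∧ rDual (d + 1) r z = k + 1) ↔
        (y < OrderDual.ofDual z ∧ OrderDual.ofDual z < x ∧ r (OrderDual.ofDual z) = j + m + 1) := by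
      have h2 := h.rank_le (OrderDual.ofDual z)
      constructor
      · rintro ⟨h3, h4, h5⟩
        refine ⟨h4, h3, ?_⟩
        change d + 1 - r (OrderDual.ofDual z) = k + 1 at h5
        omega
      · rintro ⟨h3, h4, h5⟩
        refine ⟨h4, h3, ?_⟩
        change d + 1 - r (OrderDual.ofDual z) = k + 1
        omega
    have h6 := ih (k + 1) j (OrderDual.ofDual z) y (by omega)
    by_cases h7 : OrderDual.toDual x < z ∧ z < OrderDual.toDual y ∧ rDual (d + 1) r z = k + 1
    · rw [if_pos h7]
      refine Eq.trans ?_ (congrArg rev (if_pos (h1.mp h7)).symm)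
      rw [rev_mul, rev_vb]
      exact congrArg (vb * ·) h6
    · rw [if_neg h7]
      refine Eq.trans ?_ (congrArg rev (if_neg (fun h8 => h7 (h1.mpr h8))).symm)
      exact rev_zero.symm

theorem pIndex_dual {o t : L} {d : ℕ} (h : Ranked r o t (d + 1)) :
    pIndex (rDual (d + 1) r) (OrderDual.toDual t) (OrderDual.toDual o) d =
      rev (pIndex r o t d) := by
  rw [pIndex_eq_chi h.dual.lt, pIndex_eq_chi h.lt]
  exact chi_dual h d 0 0 t o (by omega)

end

/-- complements. -/
def complIso (n : ℕ) : Finset (Fin n) ≃o (Finset (Fin n))ᵒᵈ where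
  toFun s := OrderDual.toDual sᶜ
  invFun s := (OrderDual.ofDual s)ᶜ
  left_inv s := compl_compl s
  right_inv s := compl_compl s
  map_rel_iff' := by
    intro s t
    change tᶜ ≤ sᶜ ↔ s ≤ t
    exact compl_le_compl_iff_le

theorem rev_simplexIndex (d : ℕ) : rev (simplexIndex d) = simplexIndex d := by
  have h1 := pIndex_dual (ranked_card d)
  rw [pIndex_eq_psi (ranked_card d).dual] at h1
  have h2 := psi_iso (complIso (d + 1)) Finset.card (rDual (d + 1) Finset.card) (by
    intro s
    change d + 1 - (sᶜ).card = s.card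
    rw [Finset.card_compl, Fintype.card_fin]
    have := Finset.card_le_univ s
    rw [Fintype.card_fin] at this
    omega) d 0 ∅
  have h3 : complIso (d + 1) ∅ = OrderDual.toDual Finset.univ := by
    change OrderDual.toDual (∅ᶜ : Finset (Fin (d + 1))) = _
    rw [Finset.compl_empty]
  rw [h3, h1] at h2
  change rev (pIndex Finset.card ∅ Finset.univ d) = pIndex Finset.card ∅ Finset.univ d
  rw [h2, pIndex_eq_psi (ranked_card d)]

theorem Ehrenborg.rev {d : ℕ} {p q : NC} (h : Ehrenborg d p q) :
    Ehrenborg d (MPfdde87PP.rev p) (MPfdde87PP.rev q) := by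
  have key : ∀ (p : NC) (φ : List Letter → ℤ), IsCD d p φ →
      IsCD d (MPfdde87PP.rev p) (fun w => φ w.reverse) := by
    intro p φ hφ
    have h1 : p = cdSum d φ := hφ
    have h2 := rev_cdSum d φ
    rw [← h1] at h2
    exact h2
  have invol : ∀ p : NC, MPfdde87PP.rev (MPfdde87PP.rev p) = p := by
    intro p
    induction p using FreeAlgebra.induction with
    | grade0 r =>
      have : (algebraMap ℤ NC) r = (r : ℤ) • (1 : NC) := by
        rw [zsmul_one]
        exact (eq_intCast (algebraMap ℤ NC) r)
      rw [this, rev_smul, rev_smul, rev_one, rev_one]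
    | grade1 x =>
      cases x with
      | false =>
        change MPfdde87PP.rev (MPfdde87PP.rev va) = va
        rw [rev_va, rev_va]
      | true =>
        change MPfdde87PP.rev (MPfdde87PP.rev vb) = vb
        rw [rev_vb, rev_vb]
    | mul p q hp hq => rw [rev_mul, rev_mul, hp, hq]
    | add p q hp hq => rw [rev_add, rev_add, hp, hq]
  obtain ⟨⟨φ0, h0⟩, h⟩ := h
  refine ⟨⟨_, key _ _ h0⟩, fun φ ψ hφ hψ u v huv => ?_⟩
  have h1 := key _ _ hφ
  have h2 := key _ _ hψ
  rw [invol] at h1 h2
  have h3 := h _ _ h1 h2 v.reverse u.reverse (by rw [degW_reverse, degW_reverse]; omega)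
  simpa using h3

/-- The inequality is inherited by the dual poset. -/
theorem dual {L : Type} [PartialOrder L] [Fintype L] {r : L → ℕ} {o t : L} {d : ℕ}
    (hr : Ranked r o t (d + 1)) (h : Ehrenborg d (pIndex r o t d) (simplexIndex d)) :
    Ehrenborg d (pIndex (rDual (d + 1) r) (OrderDual.toDual t) (OrderDual.toDual o) d)
      (simplexIndex d) := by
  have h1 := h.rev
  rw [rev_simplexIndex, ← pIndex_dual hr] at h1
  exact h1

end Pool.Agent.MPfdde87PP
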