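import Pool.Agent.Lib.MP_fdde87_co_PP.Alg

/-!
Weighted chains in a poset with a rank function, in pyramids and in prisms.
-/

set_option autoImplicit false

namespace Pool.Agent.MPfdde87PP

open Pool.Agent.MPfdde87

open scoped Classical in
/-- sum over the chains above `x` with ranks in `k + 1, ..., k + m` of the product of the factors
`b` (rank in the chain) and `a - b` (rank not in the chain). -/
noncomputable def psi {L : Type} [PartialOrder L] [Fintype L] (r : L → ℕ) : ℕ → ℕ → L → NC
  | _, 0, _ => 1
  | k, m + 1, x => (va - vb) * psi r (k + 1) m x +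
      ∑ y : L, if x < y ∧ r y = k + 1 then vb * psi r (k + 1) m y else 0

/-- the face poset of the pyramid. -/
abbrev Pyr (L : Type) : Type := L × Bool

/-- rank in the pyramid. -/
def rPyr {L : Type} (r : L → ℕ) (z : Pyr L) : ℕ := r z.1 + z.2.toNat

section

variable {L : Type} [PartialOrder L] [Fintype L] (r : L → ℕ)

theorem psi_zero (k : ℕ) (x : L) : psi r k 0 x = 1 := rfl

open scoped Classical in
theorem psi_succ (k m : ℕ) (x : L) : psi r k (m + 1) x = (va - vb) * psi r (k + 1) m x +
    ∑ y : L, if x < y ∧ r y = k + 1 then vb * psi r (k + 1) m y else 0 := rfl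

open scoped Classical in
theorem psi_pyr_true (m : ℕ) :
    ∀ (k : ℕ) (x : L), psi (rPyr r) (k + 1) m (x, true) = psi r k m x := by
  induction m with
  | zero => intro k x; rfl
  | succ m ih =>
    intro k x
    rw [psi_succ, psi_succ, ih, Fintype.sum_prod_type]
    congr 1
    refine Finset.sum_congr rfl fun y _ => ?_
    rw [Fintype.sum_bool]
    have h1 : ¬ ((x, true) < (y, false) ∧ rPyr r (y, false) = k + 1 + 1) := by
      rintro ⟨h, _⟩
      have := (Prod.le_def.mp h.le).2
      change true ≤ false at this
      exact Bool.noConfusion (this rfl)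
    have h2 : ((x, true) < (y, true) ∧ rPyr r (y, true) = k + 1 + 1) ↔ (x < y ∧ r y = k + 1) := by
      rw [Prod.mk_lt_mk_iff_left]
      simp [rPyr]
    rw [if_neg h1, add_zero]
    by_cases h : x < y ∧ r y = k + 1
    · rw [if_pos h, if_pos (h2.mpr h), ih]
    · rw [if_neg h, if_neg (fun h' => h (h2.mp h'))]

open scoped Classical in
theorem sum_pyr_false (k : ℕ) (x : L) (F : Pyr L → NC) :
    (∑ z : Pyr L, if (x, false) < z ∧ rPyr r z = k + 1 then F z else 0) =
      (∑ y : L, if x < y ∧ r y = k + 1 then F (y, false) else 0) +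
        ∑ y : L, if x ≤ y ∧ r y = k then F (y, true) else 0 := by
  rw [Fintype.sum_prod_type, ← Finset.sum_add_distrib]
  refine Finset.sum_congr rfl fun y _ => ?_
  rw [Fintype.sum_bool]
  have h1 : ((x, false) < (y, false) ∧ rPyr r (y, false) = k + 1) ↔ (x < y ∧ r y = k + 1) := by
    rw [Prod.mk_lt_mk_iff_left]
    simp [rPyr]
  have h2 : ((x, false) < (y, true) ∧ rPyr r (y, true) = k + 1) ↔ (x ≤ y ∧ r y = k) := by
    have h3 : (x, false) < (y, true) ↔ x ≤ y := by
      rw [Prod.mk_lt_mk]
      simp
      intro h
      exact h.le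
    rw [h3]
    simp [rPyr]
  simp only [h1, h2]
  exact add_comm _ _

/-- `o` is the least, `t` the greatest element and `r` is strictly increasing from `0` to `n`. -/
structure Ranked (o t : L) (n : ℕ) : Prop where
  least : ∀ x, o ≤ x
  greatest : ∀ x, x ≤ t
  rank_o : r o = 0
  rank_t : r t = n
  lt : ∀ x y, x < y → r x < r y

variable {r}

omit [Fintype L] in
theorem Ranked.eq_top {o t : L} {n : ℕ} (h : Ranked r o t n) {y : L} (hy : r y = n) : y = t := by
  by_contra hne
  have := h.lt y t (lt_of_le_of_ne (h.greatest y) hne)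
  rw [h.rank_t] at this
  omega

omit [Fintype L] in
theorem Ranked.rank_le {o t : L} {n : ℕ} (h : Ranked r o t n) (y : L) : r y ≤ n := by
  rcases (h.greatest y).lt_or_eq with h1 | h1
  · have := h.lt y t h1
    rw [h.rank_t] at this
    omega
  · rw [h1, h.rank_t]

open scoped Classical in
theorem Ranked.sum_top {o t : L} {n : ℕ} (h : Ranked r o t (n + 1)) {x : L} (hx : r x ≤ n)
    (F : L → NC) : (∑ y : L, if x < y ∧ r y = n + 1 then F y else 0) = F t := by
  rw [Finset.sum_eq_single t]
  · rw [if_pos]
    refine ⟨lt_of_le_of_ne (h.greatest x) ?_, h.rank_t⟩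
    rintro rfl
    rw [h.rank_t] at hx
    omega
  · intro y _ hy
    rw [if_neg]
    rintro ⟨_, h2⟩
    exact hy (h.eq_top h2)
  · intro h1
    exact absurd (Finset.mem_univ t) h1

open scoped Classical in
theorem psi_pyr_false {o t : L} {d : ℕ} (h : Ranked r o t (d + 1)) (m : ℕ) :
    ∀ (k : ℕ) (x : L), k + m = d → r x ≤ k → psi (rPyr r) k (m + 1) (x, false) =
      psi r k m x * (va + vb) + der (psi r k m x) +
        ((∑ y : L, if x ≤ y ∧ r y = k then vb * psi r k m y else 0) - vb * psi r k m x) := by
  induction m with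
  | zero =>
    intro k x hk hx
    obtain rfl : k = d := by omega
    rw [psi_succ, sum_pyr_false]
    simp only [psi_zero, der_one]
    rw [h.sum_top hx (fun _ => vb * 1)]
    noncomm_ring
  | succ m ih =>
    intro k x hk hx
    rw [psi_succ (rPyr r), sum_pyr_false, ih (k + 1) x (by omega) (by omega)]
    have h1 : (∑ y : L, if x < y ∧ r y = k + 1 then
        vb * psi (rPyr r) (k + 1) (m + 1) (y, false) else 0) =
        ∑ y : L, if x < y ∧ r y = k + 1 then
          vb * (psi r (k + 1) m y * (va + vb) + der (psi r (k + 1) m y)) else 0 := by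
      refine Finset.sum_congr rfl fun y _ => ?_
      split_ifs with hy
      · rw [ih (k + 1) y (by omega) (by omega)]
        have h2 : (∑ z : L, if y ≤ z ∧ r z = k + 1 then vb * psi r (k + 1) m z else 0) =
            vb * psi r (k + 1) m y := by
          rw [Finset.sum_eq_single y]
          · rw [if_pos ⟨le_rfl, hy.2⟩]
          · intro z _ hz
            rw [if_neg]
            rintro ⟨h3, h4⟩
            have := h.lt y z (lt_of_le_of_ne h3 (Ne.symm hz))
            omega
          · intro h3
            exact absurd (Finset.mem_univ y) h3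
        rw [h2, sub_self, add_zero]
      · rfl
    have h2 : (∑ y : L, if x ≤ y ∧ r y = k + 1 then vb * psi r (k + 1) m y else 0) =
        ∑ y : L, if x < y ∧ r y = k + 1 then vb * psi r (k + 1) m y else 0 := by
      refine Finset.sum_congr rfl fun y _ => ?_
      have h3 : (x ≤ y ∧ r y = k + 1) ↔ (x < y ∧ r y = k + 1) := by
        constructor
        · rintro ⟨h4, h5⟩
          refine ⟨lt_of_le_of_ne h4 ?_, h5⟩
          rintro rfl
          omega
        · rintro ⟨h4, h5⟩
          exact ⟨h4.le, h5⟩
      simp only [h3]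
    have h4 : (∑ y : L, if x ≤ y ∧ r y = k then
        vb * psi (rPyr r) (k + 1) (m + 1) (y, true) else 0) =
        ∑ y : L, if x ≤ y ∧ r y = k then vb * psi r k (m + 1) y else 0 := by
      refine Finset.sum_congr rfl fun y _ => ?_
      rw [psi_pyr_true]
    have h5 : (∑ y : L, if x < y ∧ r y = k + 1 then
          vb * (psi r (k + 1) m y * (va + vb) + der (psi r (k + 1) m y)) else 0) =
        (∑ y : L, if x < y ∧ r y = k + 1 then vb * psi r (k + 1) m y else 0) * (va + vb) +
        (der (∑ y : L, if x < y ∧ r y = k + 1 then vb * psi r (k + 1) m y else 0) -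
        va * ∑ y : L, if x < y ∧ r y = k + 1 then vb * psi r (k + 1) m y else 0) := by
      rw [der_sum, Finset.sum_mul, Finset.mul_sum, ← Finset.sum_sub_distrib,
        ← Finset.sum_add_distrib]
      refine Finset.sum_congr rfl fun y _ => ?_
      split_ifs
      · rw [der_mul, der_vb]
        noncomm_ring
      · rw [der_zero]
        simp
    rw [h1, h2, h4, h5, psi_succ r k m x]
    set X := psi r (k + 1) m x
    set Y := ∑ y : L, if x < y ∧ r y = k + 1 then vb * psi r (k + 1) m y else 0
    set Z := ∑ y : L, if x ≤ y ∧ r y = k then vb * psi r k (m + 1) y else 0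
    rw [der_add, der_mul, der_sub, der_va, der_vb]
    noncomm_ring

end

end Pool.Agent.MPfdde87PP
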