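import Pool.Agent.Lib.MP_fdde87_co_PP.Dual

/-!
Posets obtained from spheres by pyramids, prisms and duality.
-/

set_option autoImplicit false

namespace Pool.Agent.MPfdde87PP

open Pool.Agent.MPfdde87

/-- Posets obtained from the face posets of simplicial homology spheres (with a top element
adjoined) by any number of pyramids, prisms and passages to the dual poset. -/
inductive Iterated : ∀ (d : ℕ) (L : Type) [PartialOrder L] [Fintype L] (_ : L → ℕ) (_ _ : L), Prop
  | sphere (d : ℕ) (V : Type) [Fintype V] [DecidableEq V] (Δ : Finset (Finset V))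
      (h : IsHomologySphere d Δ) :
      Iterated d (CFace Δ) (rFace d) (cmk ∅ h.empty_mem) (ctop Δ)
  | pyramid (d : ℕ) (L : Type) [PartialOrder L] [Fintype L] (r : L → ℕ) (o t : L)
      (h : Iterated d L r o t) : Iterated (d + 1) (Pyr L) (rPyr r) (o, false) (t, true)
  | prism (d : ℕ) (L : Type) [PartialOrder L] [Fintype L] (r : L → ℕ) (o t : L) (ht : t ≠ o)
      (h : Iterated d L r o t) :
      Iterated (d + 1) (Prism L o) (rPrism o r) (pbot o) (pmk ⟨t, ht⟩ .full)
  | dual (d : ℕ) (L : Type) [PartialOrder L] [Fintype L] (r : L → ℕ) (o t : L)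
      (h : Iterated d L r o t) :
      Iterated d Lᵒᵈ (rDual (d + 1) r) (OrderDual.toDual t) (OrderDual.toDual o)

theorem Iterated.good {d : ℕ} {L : Type} [PartialOrder L] [Fintype L] {r : L → ℕ} {o t : L}
    (h : Iterated d L r o t) : Ranked r o t (d + 1) ∧
      Ehrenborg d (pIndex r o t d) (simplexIndex d) := by
  induction h with
  | sphere _ _ _ h => exact ⟨ranked_face h.empty_mem h.card_le, MPfdde87PP.sphere h⟩
  | pyramid _ _ _ _ _ _ ih => exact ⟨ih.1.pyr, MPfdde87PP.pyramid ih.1 ih.2⟩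
  | prism _ _ _ _ _ ht _ ih => exact ⟨ih.1.prism ht, MPfdde87PP.prism ih.1 ht ih.2⟩
  | dual _ _ _ _ _ _ ih => exact ⟨ih.1.dual, MPfdde87PP.dual ih.1 ih.2⟩

end Pool.Agent.MPfdde87PP
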