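import Pool.Agent.Lib.MP_fdde87_co_PP.Base

/-!
Ehrenborg's inequality for pyramids, prisms and spheres.
-/

set_option autoImplicit false

namespace Pool.Agent.MPfdde87PP

open Pool.Agent.MPfdde87

section

variable {L : Type} [PartialOrder L] [Fintype L] {r : L → ℕ}

theorem Ranked.pyr {o t : L} {n : ℕ} (h : Ranked r o t n) :
    Ranked (rPyr r) ((o, false) : Pyr L) (t, true) (n + 1) where
  least z := Prod.le_def.mpr ⟨h.least z.1, Bool.false_le _⟩
  greatest z := Prod.le_def.mpr ⟨h.greatest z.1, Bool.le_true _⟩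
  rank_o := by simp [rPyr, h.rank_o]
  rank_t := by simp [rPyr, h.rank_t]
  lt z w hzw := by
    rw [Prod.lt_iff] at hzw
    rcases hzw with ⟨h1, h2⟩ | ⟨h1, h2⟩
    · exact add_lt_add_of_lt_of_le (h.lt _ _ h1) (Bool.toNat_le_toNat h2)
    · rcases h1.lt_or_eq with h3 | h3
      · exact add_lt_add_of_lt_of_le (h.lt _ _ h3) (Bool.toNat_le_toNat h2.le)
      · unfold rPyr
        rw [h3]
        exact Nat.add_lt_add_left (bool_lt _ _ h2) _

theorem cases_prism {o : L} (z : Prism L o) : z = pbot o ∨ ∃ x s, z = pmk x s := by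
  match z with
  | none => exact Or.inl rfl
  | some z => exact Or.inr ⟨z.1, z.2, rfl⟩

theorem Ranked.prism {o t : L} {n : ℕ} (h : Ranked r o t n) (ht : t ≠ o) :
    Ranked (rPrism o r) (pbot o) (pmk ⟨t, ht⟩ .full) (n + 1) where
  least z := by
    rcases cases_prism z with rfl | ⟨x, s, rfl⟩
    · exact le_rfl
    · exact (bot_lt_mk x s).le
  greatest z := by
    rcases cases_prism z with rfl | ⟨x, s, rfl⟩
    · exact (bot_lt_mk _ _).le
    · have h1 : (x, s) ≤ ((⟨t, ht⟩, .full) : {x : L // x ≠ o} × Seg) :=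
        Prod.le_def.mpr ⟨h.greatest x.1, Or.inr rfl⟩
      exact WithBot.coe_le_coe.mpr h1
  rank_o := rfl
  rank_t := by
    rw [rPrism_mk, h.rank_t, if_pos rfl]
  lt z w hzw := by
    rcases cases_prism z with rfl | ⟨x, s, rfl⟩
    · rcases cases_prism w with rfl | ⟨y, s', rfl⟩
      · exact absurd hzw (lt_irrefl _)
      · rw [rPrism_bot, rPrism_mk]
        have := h.lt o y (lt_of_le_of_ne (h.least _) (Ne.symm y.2))
        omega
    · rcases cases_prism w with rfl | ⟨y, s', rfl⟩
      · exact absurd hzw (not_mk_lt_bot _ _)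
      · rw [mk_lt_mk, Prod.lt_iff] at hzw
        dsimp only at hzw
        rw [rPrism_mk, rPrism_mk]
        rcases hzw with ⟨h1, h2⟩ | ⟨h1, h2⟩
        · have h3 := h.lt _ _ (Subtype.coe_lt_coe.mpr h1)
          rcases h2 with rfl | rfl
          · omega
          · simp only [if_true]
            split_ifs <;> omega
        · have h3 : s' = .full := by
            rcases h2.le with h4 | h4
            · exact absurd h2 (h4 ▸ lt_irrefl _)
            · exact h4
          have h4 : s ≠ .full := by
            rintro rfl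
            rw [h3] at h2
            exact lt_irrefl _ h2
          rw [if_neg h4, if_pos h3]
          rcases h1.lt_or_eq with h5 | h5
          · have := h.lt _ _ (Subtype.coe_lt_coe.mpr h5)
            omega
          · rw [h5]
            omega

/-- The inequality is inherited by the pyramid. -/
theorem pyramid {o t : L} {d : ℕ} (hr : Ranked r o t (d + 1))
    (h : Ehrenborg d (pIndex r o t d) (simplexIndex d)) :
    Ehrenborg (d + 1) (pIndex (rPyr r) ((o, false) : Pyr L) (t, true) (d + 1))
      (simplexIndex (d + 1)) := by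
  rw [simplexIndex_eq_psi, pIndex_eq_psi hr] at h
  rw [simplexIndex_eq_psi, pIndex_eq_psi hr.pyr]
  exact ehrenborg_pyr hr h

/-- The inequality is inherited by the prism. -/
theorem prism {o t : L} {d : ℕ} (hr : Ranked r o t (d + 1)) (ht : t ≠ o)
    (h : Ehrenborg d (pIndex r o t d) (simplexIndex d)) :
    Ehrenborg (d + 1) (pIndex (rPrism o r) (pbot o) (pmk ⟨t, ht⟩ .full) (d + 1))
      (simplexIndex (d + 1)) := by
  rw [simplexIndex_eq_psi, pIndex_eq_psi hr] at h
  rw [simplexIndex_eq_psi, pIndex_eq_psi (hr.prism ht)]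
  exact ehrenborg_prism hr h

end

theorem isCDIndex_cd {V : Type} [DecidableEq V] {d : ℕ} {Δ : Finset (Finset V)}
    {φ : List Letter →₀ ℤ} (h : IsCDIndex d Δ φ) : IsCD d (abIndex d Δ) φ := by
  rw [IsCD, h.sum_eq, sum_eq_cdWords φ h.homogeneous]

theorem sphere {V : Type} [Fintype V] [DecidableEq V] {d : ℕ} {Δ : Finset (Finset V)}
    (h : IsHomologySphere d Δ) :
    Ehrenborg d (pIndex (rFace d) (cmk ∅ h.empty_mem) (ctop Δ) d) (simplexIndex d) := by
  rw [pIndex_cface h.empty_mem h.down_closed h.card_le, simplexIndex_eq_abIndex]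
  have h1 := isCDIndex_phiOf d Δ h.empty_mem h.down_closed (sphere_symm h)
  have h2 := isCDIndex_phiOf d (simplexBoundary d) (simplexBoundary_empty d)
    (simplexBoundary_down d) (simplexBoundary_symm d)
  refine ⟨⟨_, isCDIndex_cd h1⟩, fun φ ψ hφ hψ u v huv => ?_⟩
  have h3 := sphere_inequality h _ _ h1 h2 u v huv
  have hd1 : degW (u ++ [Letter.d] ++ v) = d := by
    rw [degW_append, degW_append, degW_cons, degW_nil]
    simp only [Letter.deg]
    omega
  have hd2 : degW (u ++ [Letter.c, Letter.c] ++ v) = d := by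
    rw [degW_append, degW_append, degW_cons, degW_cons, degW_nil]
    simp only [Letter.deg]
    omega
  rw [hφ.unique (isCDIndex_cd h1) _ hd1, hφ.unique (isCDIndex_cd h1) _ hd2,
    hψ.unique (isCDIndex_cd h2) _ hd1, hψ.unique (isCDIndex_cd h2) _ hd2]
  exact h3

end Pool.Agent.MPfdde87PP
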