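import Pool.Agent.Lib.MP_fdde87_co_PP.Flags

/-!
Weighted chains in prisms.
-/

set_option autoImplicit false

namespace Pool.Agent.MPfdde87PP

open Pool.Agent.MPfdde87

/-- The nonempty faces of a segment: its two endpoints and the segment itself. -/
inductive Seg : Type
  | left : Seg
  | right : Seg
  | full : Seg
  deriving DecidableEq

instance : Fintype Seg := ⟨{.left, .right, .full}, by intro x; cases x <;> decide⟩

/-- The order by inclusion: the two endpoints are below the segment. -/
instance : PartialOrder Seg where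
  le x y := x = y ∨ y = .full
  le_refl _ := Or.inl rfl
  le_trans x y z h1 h2 := by
    rcases h2 with rfl | rfl
    · exact h1
    · exact Or.inr rfl
  le_antisymm x y h1 h2 := by
    rcases h1 with h1 | h1
    · exact h1
    · rcases h2 with h2 | h2
      · exact h2.symm
      · rw [h1, h2]

theorem seg_le {x y : Seg} : x ≤ y ↔ x = y ∨ y = .full := Iff.rfl

theorem sum_seg (F : Seg → NC) : ∑ s, F s = F .left + F .right + F .full := by
  change ∑ s ∈ ({.left, .right, .full} : Finset Seg), F s = _
  rw [Finset.sum_insert (by decide), Finset.sum_insert (by decide), Finset.sum_singleton, add_assoc]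

/-- The face poset of the prism: the empty face and the products of the nonempty faces with the
nonempty faces of a segment. -/
def Prism (L : Type) (o : L) : Type := WithBot ({x : L // x ≠ o} × Seg)

section

variable {L : Type} [PartialOrder L] [Fintype L] (o : L) (r : L → ℕ)

instance : PartialOrder (Prism L o) :=
  inferInstanceAs (PartialOrder (WithBot ({x : L // x ≠ o} × Seg)))

open scoped Classical in
noncomputable instance : Fintype (Prism L o) :=
  inferInstanceAs (Fintype (Option ({x : L // x ≠ o} × Seg)))

/-- The empty face of the prism. -/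
def pbot : Prism L o := (⊥ : WithBot ({x : L // x ≠ o} × Seg))

/-- The product of a nonempty face with a nonempty face of the segment. -/
def pmk {o : L} (x : {x : L // x ≠ o}) (s : Seg) : Prism L o :=
  ((x, s) : WithBot ({x : L // x ≠ o} × Seg))

/-- The rank in the prism. -/
def rPrism : Prism L o → ℕ
  | none => 0
  | some z => r z.1 + if z.2 = .full then 1 else 0

theorem rPrism_bot : rPrism o r (pbot o) = 0 := rfl

theorem rPrism_mk {o : L} (x : {x : L // x ≠ o}) (s : Seg) :
    rPrism o r (pmk x s) = r x + if s = .full then 1 else 0 := rfl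

theorem not_mk_lt_bot {o : L} (x : {x : L // x ≠ o}) (s : Seg) : ¬ pmk x s < pbot o :=
  fun h => absurd h (WithBot.not_lt_bot _)

theorem bot_lt_mk {o : L} (x : {x : L // x ≠ o}) (s : Seg) : pbot o < pmk x s :=
  WithBot.bot_lt_coe _

theorem mk_lt_mk {o : L} (x y : {x : L // x ≠ o}) (s s' : Seg) :
    pmk x s < pmk y s' ↔ (x, s) < (y, s') := WithBot.coe_lt_coe

open scoped Classical in
theorem sum_prism (F : Prism L o → NC) : ∑ z, F z = F (pbot o) +
    ∑ y : {x : L // x ≠ o}, (F (pmk y .left) + F (pmk y .right) + F (pmk y .full)) := by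
  have h1 : ∑ z, F z = F (pbot o) + ∑ z : {x : L // x ≠ o} × Seg, F (pmk z.1 z.2) :=
    Fintype.sum_option (α := {x : L // x ≠ o} × Seg) F
  rw [h1, Fintype.sum_prod_type]
  simp only [sum_seg]

open scoped Classical in
theorem sum_ne (F : L → NC) (h : F o = 0) : ∑ y : {x : L // x ≠ o}, F y = ∑ y : L, F y := by
  rw [← Finset.sum_subtype (Finset.univ.filter (· ≠ o)) (by simp) F, Finset.sum_filter]
  refine Finset.sum_congr rfl fun y _ => ?_
  split_ifs with hy
  · rfl
  · rw [not_not] at hy
    rw [hy, h]

theorem full_not_le {s : Seg} (hs : s ≠ .full) : ¬ (Seg.full ≤ s) := by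
  rw [seg_le]
  rintro (h | h)
  · exact hs h.symm
  · exact hs h

open scoped Classical in
theorem psi_prism_full (ho : ∀ x : L, o ≤ x) (m : ℕ) : ∀ (k : ℕ) (x : {x : L // x ≠ o}),
    psi (rPrism o r) (k + 1) m (pmk x .full) = psi r k m x := by
  induction m with
  | zero => intro k x; rfl
  | succ m ih =>
    intro k x
    rw [psi_succ, psi_succ, ih, sum_prism]
    congr 1
    rw [if_neg (fun h => not_mk_lt_bot x _ h.1), zero_add]
    rw [← sum_ne o (fun y : L => if (x : L) < y ∧ r y = k + 1 then vb * psi r (k + 1) m y else 0)]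
    · refine Finset.sum_congr rfl fun y _ => ?_
      have h1 : ∀ s : Seg, s ≠ .full → ¬ (pmk x .full < pmk y s ∧
          rPrism o r (pmk y s) = k + 1 + 1) := by
        intro s hs h
        rw [mk_lt_mk] at h
        exact full_not_le hs (Prod.le_def.mp h.1.le).2
      rw [if_neg (h1 _ (by decide)), if_neg (h1 _ (by decide)), zero_add, zero_add]
      have h2 : (pmk x .full < pmk y .full ∧ rPrism o r (pmk y .full) = k + 1 + 1) ↔
          ((x : L) < y ∧ r y = k + 1) := by
        rw [mk_lt_mk, Prod.mk_lt_mk_iff_left, rPrism_mk, if_pos rfl, Subtype.coe_lt_coe]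
        simp
      simp only [h2, ih]
    · rw [if_neg]
      rintro ⟨h, _⟩
      exact absurd h (not_lt_of_ge (ho _))

open scoped Classical in
theorem psi_prism_side (ho : ∀ x : L, o ≤ x) (s : Seg) (hs : s ≠ .full) (m : ℕ) :
    ∀ (k : ℕ) (x : {x : L // x ≠ o}),
    psi (rPrism o r) k m (pmk x s) = psi (rPyr r) k m ((x : L), false) := by
  induction m with
  | zero => intro k x; rfl
  | succ m ih =>
    intro k x
    rw [psi_succ, psi_succ, ih, sum_prism, sum_pyr_false]
    congr 1
    rw [if_neg (fun h => not_mk_lt_bot x _ h.1), zero_add]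
    have hlt : ∀ y : {x : L // x ≠ o}, (pmk x s < pmk y s ∧ rPrism o r (pmk y s) = k + 1) ↔
        ((x : L) < y ∧ r y = k + 1) := by
      intro y
      rw [mk_lt_mk, Prod.mk_lt_mk_iff_left, rPrism_mk, if_neg hs, Subtype.coe_lt_coe, add_zero]
    have hle : ∀ y : {x : L // x ≠ o}, (pmk x s < pmk y .full ∧
        rPrism o r (pmk y .full) = k + 1) ↔ ((x : L) ≤ y ∧ r y = k) := by
      intro y
      rw [mk_lt_mk, rPrism_mk, if_pos rfl]
      have h3 : (x, s) < (y, Seg.full) ↔ x ≤ y := by
        constructor
        · intro h
          exact (Prod.le_def.mp h.le).1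
        · intro h
          refine lt_of_le_of_ne (Prod.le_def.mpr ⟨h, Or.inr rfl⟩) ?_
          intro h'
          exact hs (congrArg Prod.snd h')
      rw [h3, Subtype.coe_le_coe]
      simp
    have hno : ∀ (y : {x : L // x ≠ o}) (s' : Seg), s' ≠ s → s' ≠ .full →
        ¬ (pmk x s < pmk y s' ∧ rPrism o r (pmk y s') = k + 1) := by
      intro y s' h1 h2 h
      rw [mk_lt_mk] at h
      rcases (Prod.le_def.mp h.1.le).2 with h3 | h3
      · exact h1 h3.symm
      · exact h2 h3
    rw [← sum_ne o (fun y : L => if (x : L) < y ∧ r y = k + 1 then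
        vb * psi (rPyr r) (k + 1) m (y, false) else 0),
      ← sum_ne o (fun y : L => if (x : L) ≤ y ∧ r y = k then
        vb * psi (rPyr r) (k + 1) m (y, true) else 0), ← Finset.sum_add_distrib]
    · refine Finset.sum_congr rfl fun y _ => ?_
      have h4 : (if pmk x s < pmk y .full ∧ rPrism o r (pmk y .full) = k + 1 then
          vb * psi (rPrism o r) (k + 1) m (pmk y .full) else 0) =
          if (x : L) ≤ y ∧ r y = k then vb * psi (rPyr r) (k + 1) m ((y : L), true) else 0 := by
        simp only [hle, psi_prism_full o r ho, psi_pyr_true]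
      have h5 : (if pmk x s < pmk y s ∧ rPrism o r (pmk y s) = k + 1 then
          vb * psi (rPrism o r) (k + 1) m (pmk y s) else 0) =
          if (x : L) < y ∧ r y = k + 1 then
            vb * psi (rPyr r) (k + 1) m ((y : L), false) else 0 := by
        simp only [hlt, ih]
      rw [h4, ← h5]
      congr 1
      cases s with
      | left => rw [if_neg (hno y .right (by decide) (by decide)), add_zero]
      | right => rw [if_neg (hno y .left (by decide) (by decide)), zero_add]
      | full => exact absurd rfl hs
    · rw [if_neg]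
      rintro ⟨h, _⟩
      exact x.2 (le_antisymm h (ho _))
    · rw [if_neg]
      rintro ⟨h, _⟩
      exact absurd h (not_lt_of_ge (ho _))

end

end Pool.Agent.MPfdde87PP
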