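import Pool.Agent.Lib.MP_fdde87_co_PP.Cone

/-!
The ab-index of the simplex.
-/

set_option autoImplicit false

namespace Pool.Agent.MPfdde87PP

open Pool.Agent.MPfdde87

theorem psi_iso {L L' : Type} [PartialOrder L] [Fintype L] [PartialOrder L'] [Fintype L']
    (e : L ≃o L') (r : L → ℕ) (r' : L' → ℕ) (hr : ∀ x, r' (e x) = r x) (m : ℕ) :
    ∀ (k : ℕ) (x : L), psi r' k m (e x) = psi r k m x := by
  classical
  induction m with
  | zero => intro k x; rfl
  | succ m ih =>
    intro k x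
    rw [psi_succ, psi_succ, ih]
    congr 1
    rw [← e.toEquiv.sum_comp]
    refine Finset.sum_congr rfl fun y _ => ?_
    have h1 : (e x < e y ∧ r' (e y) = k + 1) ↔ (x < y ∧ r y = k + 1) := by
      rw [e.lt_iff_lt, hr]
    change (if e x < e y ∧ r' (e y) = k + 1 then vb * psi r' (k + 1) m (e y) else 0) = _
    simp only [h1, ih]

/-- The rank function of the lattice of all subsets (as indicator functions) of an `n`-set. -/
def cnt {n : ℕ} (f : Fin n → Bool) : ℕ := ∑ i, (f i).toNat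

theorem bool_lt : ∀ a b : Bool, a < b → a.toNat < b.toNat := by decide

theorem ranked_cnt (d : ℕ) :
    Ranked (cnt (n := d + 1)) (fun _ => false) (fun _ => true) (d + 1) where
  least f i := Bool.false_le _
  greatest f i := Bool.le_true _
  rank_o := by simp [cnt]
  rank_t := by simp [cnt]
  lt f g h := by
    rw [Pi.lt_def] at h
    obtain ⟨h1, i, hi⟩ := h
    refine Finset.sum_lt_sum (fun j _ => ?_) ⟨i, Finset.mem_univ i, ?_⟩
    · exact Bool.toNat_le_toNat (h1 j)
    · exact bool_lt _ _ hi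

/-- splitting off the first vertex. -/
def consIso (n : ℕ) : (Fin (n + 1) → Bool) ≃o Pyr (Fin n → Bool) where
  toFun f := (fun i => f i.succ, f 0)
  invFun p := Fin.cons p.2 p.1
  left_inv f := by
    funext i
    refine Fin.cases ?_ (fun i => ?_) i
    · rfl
    · rfl
  right_inv p := rfl
  map_rel_iff' := by
    intro f g
    change ((fun i : Fin n => f i.succ) ≤ (fun i : Fin n => g i.succ) ∧ f 0 ≤ g 0) ↔ f ≤ g
    rw [Pi.le_def, Pi.le_def, Fin.forall_fin_succ]
    exact and_comm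

theorem psi_cnt (d : ℕ) : psi (cnt (n := d + 1)) 0 d (fun _ => false) = cdSum d (sx d) := by
  induction d with
  | zero =>
    rw [psi_zero, cdSum_zero]
    simp [sx]
  | succ d ih =>
    have h1 := psi_iso (consIso (d + 1)) (cnt (n := d + 2)) (rPyr (cnt (n := d + 1))) (by
      intro f
      change (∑ i : Fin (d + 1), (f i.succ).toNat) + (f 0).toNat = ∑ i, (f i).toNat
      have h0 := Fin.sum_univ_succ (fun i : Fin (d + 2) => (f i).toNat)
      rw [h0, add_comm]) (d + 1) 0 (fun _ => false)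
    have h2 := psi_pyr (ranked_cnt d)
    change psi (cnt (n := d + 2)) 0 (d + 1) (fun _ => false) =
      cdSum (d + 1) (fun w => pyrC w (sx d))
    rw [cdSum_pyrC, ← ih, ← h2, ← h1]
    rfl

/-- `φ` is a family of coefficients of `p` as a polynomial in the cd-words of degree `d`. -/
def IsCD (d : ℕ) (p : NC) (φ : List Letter → ℤ) : Prop :=
  p = ∑ w ∈ cdWords d, φ w • polyW w

theorem IsCD.unique {d : ℕ} {p : NC} {φ ψ : List Letter → ℤ} (h1 : IsCD d p φ) (h2 : IsCD d p ψ)
    (w : List Letter) (hw : degW w = d) : φ w = ψ w := by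
  have h3 : ∑ w ∈ cdWords d, (φ w - ψ w) • polyW w = 0 := by
    simp only [sub_smul]
    rw [Finset.sum_sub_distrib, ← h1, ← h2, sub_self]
  have h4 := cd_unique d (fun w => φ w - ψ w) (by rw [h3, map_zero]) w ((mem_cdWords _ _).mpr hw)
  exact sub_eq_zero.mp h4

/-- Ehrenborg's inequality for the ab-polynomial `p` of degree `d`, relative to `q`. -/
def Ehrenborg (d : ℕ) (p q : NC) : Prop :=
  (∃ φ, IsCD d p φ) ∧ ∀ φ ψ, IsCD d p φ → IsCD d q ψ → ∀ u v : List Letter,
    degW u + degW v + 2 = d →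
      φ (u ++ [Letter.d] ++ v) - φ (u ++ [Letter.c, Letter.c] ++ v) ≥
        ψ (u ++ [Letter.d] ++ v) - ψ (u ++ [Letter.c, Letter.c] ++ v)

theorem ehrenborg_iff (d : ℕ) (p : NC) :
    Ehrenborg d p (psi (cnt (n := d + 1)) 0 d (fun _ => false)) ↔
      ∃ φ, p = cdSum d φ ∧ EhrC d φ := by
  have hs : IsCD d (psi (cnt (n := d + 1)) 0 d (fun _ => false)) (sx d) := psi_cnt d
  have e1 : ∀ u v : List Letter, u ++ [Letter.d] ++ v = u ++ .d :: v := by simp
  have e2 : ∀ u v : List Letter, u ++ [Letter.c, Letter.c] ++ v = u ++ .c :: .c :: v := by simp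
  constructor
  · rintro ⟨⟨φ, hφ⟩, h⟩
    refine ⟨φ, hφ, fun u v huv => ?_⟩
    have := h φ (sx d) hφ hs u v huv
    rw [e1, e2] at this
    exact this
  · rintro ⟨φ, hφ, h⟩
    refine ⟨⟨φ, hφ⟩, fun φ' ψ h1 h2 u v huv => ?_⟩
    have h3 : IsCD d p φ := hφ
    rw [e1, e2, h1.unique h3 _ ((deg_d u v).trans huv), h1.unique h3 _ ((deg_cc u v).trans huv),
      h2.unique hs _ ((deg_d u v).trans huv), h2.unique hs _ ((deg_cc u v).trans huv)]
    exact h u v huv

section

variable {L : Type} [PartialOrder L] [Fintype L] {r : L → ℕ}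

theorem ehrenborg_pyr {o t : L} {d : ℕ} (hr : Ranked r o t (d + 1))
    (h : Ehrenborg d (psi r 0 d o) (psi (cnt (n := d + 1)) 0 d (fun _ => false))) :
    Ehrenborg (d + 1) (psi (rPyr r) 0 (d + 1) (o, false))
      (psi (cnt (n := d + 2)) 0 (d + 1) (fun _ => false)) := by
  rw [ehrenborg_iff] at h ⊢
  obtain ⟨φ, h1, h2⟩ := h
  have h3 : φ (List.replicate d .c) = 1 := by
    have h0 := ev_psi r d 0 o
    rw [h1, ev_cdSum] at h0
    exact h0
  refine ⟨_, ?_, h2.pyr h3⟩
  rw [psi_pyr hr, cdSum_pyrC, cdSum_trunc, ← h1]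

theorem ehrenborg_prism {o t : L} {d : ℕ} (hr : Ranked r o t (d + 1))
    (h : Ehrenborg d (psi r 0 d o) (psi (cnt (n := d + 1)) 0 d (fun _ => false))) :
    Ehrenborg (d + 1) (psi (rPrism o r) 0 (d + 1) (pbot o))
      (psi (cnt (n := d + 2)) 0 (d + 1) (fun _ => false)) := by
  rw [ehrenborg_iff] at h ⊢
  obtain ⟨φ, h1, h2⟩ := h
  have h3 : φ (List.replicate d .c) = 1 := by
    have h0 := ev_psi r d 0 o
    rw [h1, ev_cdSum] at h0
    exact h0
  refine ⟨_, ?_, h2.prism h3⟩
  rw [psi_prism hr, cdSum_sub, cdSum_smul, cdSum_pyrC]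
  have h4 : cdSum (d + 1) (fun w => tlC (trunc d φ) w) = (va + vb) * cdSum d (trunc d φ) :=
    cdSum_tlC d _
  rw [h4, cdSum_trunc, ← h1, two_smul]
  noncomm_ring

end

end Pool.Agent.MPfdde87PP
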